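import Pool.Agent.Q319.WN.Vec

/-!
# Vectors of algebraic integers and their coordinates in an integral basis
-/

set_option autoImplicit false

namespace Pool.Agent.Q319.WN

open Finset Filter Topology NumberField

variable {K : Type} [Field K] {J ι : Type}

/-- The vector of algebraic integers of `K` whose entry at `i` has the coordinates `x (i, j)` in the integral basis `ω`. -/
noncomputable def vec [Fintype J] (ω : Module.Basis J ℤ (𝓞 K)) (x : ι × J → ℤ) (i : ι) : 𝓞 K :=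
  ∑ j, x (i, j) • ω j

lemma repr_vec [Fintype J] (ω : Module.Basis J ℤ (𝓞 K)) (x : ι × J → ℤ) (i : ι) (j : J) :
    ω.repr (vec ω x i) j = x (i, j) := by
  unfold vec
  rw [ω.repr_sum_self]

lemma vec_inj [Fintype J] (ω : Module.Basis J ℤ (𝓞 K)) : Function.Injective (fun x : ι × J → ℤ => vec ω x) := by
  intro x y h
  ext ⟨i, j⟩
  have h1 : vec ω x = vec ω y := h
  rw [← repr_vec ω x i j, ← repr_vec ω y i j, h1]

lemma vec_surj [Fintype J] (ω : Module.Basis J ℤ (𝓞 K)) (c : ι → 𝓞 K) :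
    vec ω (fun p : ι × J => ω.repr (c p.1) p.2) = c := by
  ext1 i
  unfold vec
  exact ω.sum_repr (c i)

/-- Counting vectors of algebraic integers and their coordinate vectors. -/
lemma ncard_vec [Fintype J] (ω : Module.Basis J ℤ (𝓞 K)) (P : (ι → 𝓞 K) → Prop) (H : ℕ) :
    {x : ι × J → ℤ | (∀ i, |x i| ≤ (H : ℤ)) ∧ P (vec ω x)}.ncard =
      {c : ι → 𝓞 K | (∀ i j, |ω.repr (c i) j| ≤ (H : ℤ)) ∧ P c}.ncard := by
  rw [← Set.ncard_image_of_injective _ (vec_inj ω)]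
  congr 1
  ext c
  simp only [Set.mem_image, Set.mem_ofPred_eq]
  constructor
  · rintro ⟨x, ⟨h1, h2⟩, rfl⟩
    exact ⟨fun i j => by rw [repr_vec]; exact h1 (i, j), h2⟩
  · rintro ⟨h1, h2⟩
    exact ⟨_, ⟨fun p => h1 p.1 p.2, by rw [vec_surj]; exact h2⟩, vec_surj ω c⟩

/-- A property of vectors of algebraic integers which holds for 100% of the vectors in the boxes of coordinates. -/
theorem null_basis [Fintype J] [Fintype ι] (ω : Module.Basis J ℤ (𝓞 K)) (P : (ι → 𝓞 K) → Prop)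
    (h : Tendsto (fun H : ℕ => ({c : ι → 𝓞 K | (∀ i j, |ω.repr (c i) j| ≤ (H : ℤ)) ∧ P c}.ncard : ℝ) /
      ({c : ι → 𝓞 K | ∀ i j, |ω.repr (c i) j| ≤ (H : ℤ)}.ncard : ℝ)) atTop (𝓝 1)) :
    NullBox (fun x : ι × J → ℤ => ¬ P (vec ω x)) := by
  have key : NullBox (fun x : ι × J → ℤ => True ∧ ¬ P (vec ω x)) := by
    refine null_of_ratio (A := fun _ => True) (B := fun x => P (vec ω x)) (h.congr fun H => ?_)
    have h1 := ncard_vec ω P H
    have h2 := ncard_vec ω (fun _ : ι → 𝓞 K => True) H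
    simp only [and_true] at h2
    simp only [true_and, and_true]
    rw [h1, h2]
  exact key.mono fun x hx => ⟨trivial, hx⟩

/-- The same with the exceptions. -/
theorem null_basis' [Fintype J] [Fintype ι] (ω : Module.Basis J ℤ (𝓞 K)) (P : (ι → 𝓞 K) → Prop)
    (h : Tendsto (fun H : ℕ => ({c : ι → 𝓞 K | (∀ i j, |ω.repr (c i) j| ≤ (H : ℤ)) ∧ ¬ P c}.ncard : ℝ) /
      ({c : ι → 𝓞 K | ∀ i j, |ω.repr (c i) j| ≤ (H : ℤ)}.ncard : ℝ)) atTop (𝓝 0)) :
    NullBox (fun x : ι × J → ℤ => ¬ P (vec ω x)) := by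
  refine null_basis ω P ?_
  have h1 : Tendsto (fun H : ℕ => 1 - ({c : ι → 𝓞 K | (∀ i j, |ω.repr (c i) j| ≤ (H : ℤ)) ∧ ¬ P c}.ncard : ℝ) /
      ({c : ι → 𝓞 K | ∀ i j, |ω.repr (c i) j| ≤ (H : ℤ)}.ncard : ℝ)) atTop (𝓝 (1 - 0)) :=
    tendsto_const_nhds.sub h
  rw [sub_zero] at h1
  refine h1.congr fun H => ?_
  have hfin : {c : ι → 𝓞 K | ∀ i j, |ω.repr (c i) j| ≤ (H : ℤ)}.Finite := by
    have h2 : (fun x : ι × J → ℤ => vec ω x) '' {x : ι × J → ℤ | (∀ i, |x i| ≤ (H : ℤ)) ∧ True} =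
        {c : ι → 𝓞 K | ∀ i j, |ω.repr (c i) j| ≤ (H : ℤ)} := by
      ext c
      simp only [Set.mem_image, Set.mem_ofPred_eq, and_true]
      constructor
      · rintro ⟨x, h1, rfl⟩
        exact fun i j => by rw [repr_vec]; exact h1 (i, j)
      · intro h1
        exact ⟨_, fun p => h1 p.1 p.2, vec_surj ω c⟩
    rw [← h2]
    exact (box_finite (fun _ => True) H).image _
  have hpos : 0 < ({c : ι → 𝓞 K | ∀ i j, |ω.repr (c i) j| ≤ (H : ℤ)}.ncard : ℝ) := by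
    have : 0 < {c : ι → 𝓞 K | ∀ i j, |ω.repr (c i) j| ≤ (H : ℤ)}.ncard := by
      rw [Set.ncard_pos hfin]
      exact ⟨0, fun i j => by simp⟩
    exact_mod_cast this
  have hsum : {c : ι → 𝓞 K | (∀ i j, |ω.repr (c i) j| ≤ (H : ℤ)) ∧ P c}.ncard +
      {c : ι → 𝓞 K | (∀ i j, |ω.repr (c i) j| ≤ (H : ℤ)) ∧ ¬ P c}.ncard =
      {c : ι → 𝓞 K | ∀ i j, |ω.repr (c i) j| ≤ (H : ℤ)}.ncard := by
    rw [← Set.ncard_union_eq ?_ (hfin.subset fun c hc => hc.1) (hfin.subset fun c hc => hc.1)]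
    · congr 1
      ext c
      simp only [Set.mem_union, Set.mem_ofPred_eq]
      tauto
    · rw [Set.disjoint_left]
      rintro c ⟨-, h1⟩ ⟨-, h2⟩
      exact h2 h1
  have hsum' : ({c : ι → 𝓞 K | (∀ i j, |ω.repr (c i) j| ≤ (H : ℤ)) ∧ P c}.ncard : ℝ) +
      ({c : ι → 𝓞 K | (∀ i j, |ω.repr (c i) j| ≤ (H : ℤ)) ∧ ¬ P c}.ncard : ℝ) =
      ({c : ι → 𝓞 K | ∀ i j, |ω.repr (c i) j| ≤ (H : ℤ)}.ncard : ℝ) := by exact_mod_cast hsum
  rw [← hsum'] at hpos ⊢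
  field_simp
  ring

end Pool.Agent.Q319.WN
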