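import Mathlib

/-! # Rational zeros of integral polynomials are zeros over all fields of characteristic zero -/

set_option autoImplicit false

namespace Pool.Agent.Q319.WN

lemma cast_aeval {σ : Type} (K : Type) [Field K] [CharZero K] (x : σ → ℚ) (f : MvPolynomial σ ℤ) :
    MvPolynomial.aeval (fun i => (x i : K)) f = ((MvPolynomial.aeval x f : ℚ) : K) := by
  have h := MvPolynomial.aeval_algebraMap_apply (R := ℤ) (A := ℚ) K x f
  simpa [Function.comp_def] using h

lemma cast_ne {σ : Type} (K : Type) [Field K] [CharZero K] {x : σ → ℚ} (hx : x ≠ 0) :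
    (fun i => (x i : K)) ≠ 0 := fun h => hx (funext fun i => by
  have := congrFun h i
  simpa using this)

end Pool.Agent.Q319.WN
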