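import Pool.Agent.Q319.DR.Win2
import Pool.Agent.Q319.DR.Own

/-!
# Properties of integers which are rare at the multiples and at the dilates of almost all real numbers
-/

set_option autoImplicit false

namespace Pool.Agent.Q319.WN

open Finset MeasureTheory Filter

open Classical in
/-- The number of the `k` with `1 ≤ k ≤ K` such that some integer `x` whose absolute value is at a distance of at most
`w` from `k y` has the property `P`. -/
noncomputable def exceptions (K y w : ℝ) (P : ℤ → Prop) : ℕ :=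
  ((Icc 1 ⌊K⌋₊).filter (fun k : ℕ => ∃ x : ℤ, |(|(x : ℝ)|) - k * y| ≤ w ∧ P x)).card

/-- For `0 < θ < 1` there is `κ > 0` such that for all `A`, `U` and all large `N` the following holds for all real `y` with
`N ^ (1 - θ) ≤ y ≤ 2 N ^ (1 - θ)` outside a set of measure at most `N ^ (1 - θ - κ)`: for all `k ≤ N ^ θ` with at most
`N ^ θ / log ^ U N` exceptions NO integer `x` with `||x| - k y| ≤ log ^ A N` has the property `P`. -/
def RareAtMultiples (P : ℤ → Prop) : Prop :=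
  ∀ θ : ℝ, 0 < θ → θ < 1 → ∃ κ : ℝ, 0 < κ ∧ ∀ A U : ℕ, ∃ N₀ : ℕ, ∀ N : ℕ, N₀ ≤ N →
    ∃ E : Set ℝ, MeasurableSet E ∧ volume E ≤ ENNReal.ofReal ((N : ℝ) ^ (1 - θ - κ)) ∧
      ∀ y : ℝ, (N : ℝ) ^ (1 - θ) ≤ y → y ≤ 2 * (N : ℝ) ^ (1 - θ) → y ∉ E →
        (exceptions ((N : ℝ) ^ θ) y (Real.log N ^ A) P : ℝ) ≤ (N : ℝ) ^ θ / Real.log N ^ U

/-- The integers with the property `P` are sparse: up to `X` there are at most `X / log ^ U X` of them, for all `U` and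
all large `X`. -/
def Few (P : ℤ → Prop) : Prop :=
  ∀ U : ℕ, ∃ X₀ : ℕ, ∀ X : ℕ, X₀ ≤ X → ∀ F : Finset ℤ, F ⊆ Icc (-(X : ℤ)) X → (∀ x ∈ F, P x) →
    (F.card : ℝ) ≤ X / Real.log X ^ U

theorem Few.mono {P Q : ℤ → Prop} (h : Few P) (hQ : ∀ x, Q x → P x) : Few Q := by
  intro U
  obtain ⟨X₀, h1⟩ := h U
  exact ⟨X₀, fun X hX F hF hFQ => h1 X hX F hF (fun x hx => hQ x (hFQ x hx))⟩

theorem few_of {P : ℤ → Prop} (h : ∀ U : ℕ, ∃ X₀ : ℕ, ∀ X : ℕ, X₀ ≤ X → ∀ F : Finset ℤ,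
    (∀ x, x ∈ F ↔ x ∈ Icc (-(X : ℤ)) X ∧ P x) → (F.card : ℝ) ≤ X / Real.log X ^ U) : Few P := by
  classical
  intro U
  obtain ⟨X₀, h1⟩ := h U
  refine ⟨X₀, fun X hX F hF hFP => ?_⟩
  refine le_trans ?_ (h1 X hX ((Icc (-(X : ℤ)) X).filter P) (fun x => by rw [mem_filter]))
  apply Nat.cast_le.2
  apply card_le_card
  intro x hx
  rw [mem_filter]
  exact ⟨hF hx, hFP x hx⟩

theorem multiples {P : ℤ → Prop} (h : Few P) : RareAtMultiples P := by
  classical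
  intro θ hθ hθ1
  obtain ⟨κ, hκ, h1⟩ := Pool.Agent.Q319.DR.win_log θ hθ hθ1
  refine ⟨κ, hκ, fun A U => ?_⟩
  obtain ⟨X₀, h2⟩ := h (U + A + 3)
  obtain ⟨N₁, h3⟩ := (tendsto_natCast_atTop_atTop.eventually
    (Pool.Agent.Q319.DR.ev_log 4)).exists_forall_of_atTop
  obtain ⟨N₀, h4⟩ := h1 A U (fun _ => P) (X₀ + N₁ + 1) (fun N hN F hF => by
    have hL := h3 N (by omega)
    have hN1 : (1 : ℝ) ≤ N := by exact_mod_cast (by omega : 1 ≤ N)
    have hL0 : 0 < Real.log N := by linarith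
    have h5 := h2 (4 * N) (by omega) F (fun x hx => by
      have h6 := abs_le.1 (hF x hx).1
      rw [mem_Icc]
      constructor
      · have : (((-((4 * N : ℕ) : ℤ)) : ℤ) : ℝ) ≤ x := by push_cast; linarith [h6.1]
        exact_mod_cast this
      · have : (x : ℝ) ≤ (((4 * N : ℕ) : ℤ) : ℝ) := by push_cast; linarith [h6.2]
        exact_mod_cast this) (fun x hx => (hF x hx).2)
    refine h5.trans ?_
    have h6 : Real.log N ≤ Real.log ((4 * N : ℕ) : ℝ) := Real.log_le_log (by linarith) (by push_cast; linarith)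
    calc (((4 * N : ℕ) : ℝ)) / Real.log ((4 * N : ℕ) : ℝ) ^ (U + A + 3)
        ≤ (((4 * N : ℕ) : ℝ)) / Real.log N ^ (U + A + 3) := by gcongr
      _ = 4 * (N / Real.log N ^ (U + A + 3)) := by push_cast; ring
      _ ≤ Real.log N * (N / Real.log N ^ (U + A + 3)) := by
          apply mul_le_mul_of_nonneg_right _ (by positivity)
          linarith
      _ = N / Real.log N ^ (U + A + 2) := by
          rw [show U + A + 3 = (U + A + 2) + 1 by ring, pow_succ]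
          field_simp)
  exact ⟨N₀, h4⟩

/-- **Dilates by almost every real number**, for countably many properties at once. -/
theorem dilates {P : ℕ → ℤ → Prop} (h : ∀ i, Few (P i)) (b : ℕ → ℕ) (δ : ℝ) (hδ : 0 < δ)
    (hb : ∀ᶠ k : ℕ in atTop, Real.exp ((k : ℝ) ^ δ) ≤ b k) :
    ∀ᵐ α : ℝ, 0 < α → ∀ A i : ℕ, ∀ᶠ k : ℕ in atTop, ∀ x : ℤ, |(|(x : ℝ)|) - α * b k| ≤ Real.log (b k) ^ A →
      ¬ P i x := by
  classical
  have h1 := Pool.Agent.Q319.DR.lac_all_count (fun i _ n => ∃ x : ℤ, |(x : ℝ)| = n ∧ P i x) (fun i => by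
    refine Pool.Agent.Q319.DR.sparse_own _ (fun U => ?_)
    obtain ⟨X₀, h2⟩ := h i U
    refine ⟨X₀, fun N hN S hS hSb => ?_⟩
    refine Pool.Agent.Q319.DR.nat_of_int (P i) _ S (fun n hn => (hSb n hn).2) fun F hF => ?_
    refine h2 N hN F (fun x hx => ?_) (fun x hx => (hF x hx).1)
    obtain ⟨-, h4⟩ := hF x hx
    rw [mem_image] at h4
    obtain ⟨n, hn, h5⟩ := h4
    have h6 := (mem_Icc.1 (hS hn)).2
    have h7 : |x| ≤ (N : ℤ) := by rw [← h5]; exact_mod_cast h6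
    exact mem_Icc.2 (abs_le.1 h7)) b δ hδ hb
  filter_upwards [h1] with α hα hα0 A i
  filter_upwards [hα hα0 A i] with k hk x hx hP
  refine hk x.natAbs ?_ ⟨x, ?_, hP⟩
  · rw [Nat.cast_natAbs, Int.cast_abs]
    exact hx
  · rw [Nat.cast_natAbs, Int.cast_abs]

/-- **Dilates by almost every real number**, for a countable family of properties at once. -/
theorem dilates_all {ι : Type*} [Countable ι] {P : ι → ℤ → Prop} (h : ∀ i, Few (P i)) (b : ℕ → ℕ) (δ : ℝ) (hδ : 0 < δ)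
    (hb : ∀ᶠ k : ℕ in atTop, Real.exp ((k : ℝ) ^ δ) ≤ b k) :
    ∀ᵐ α : ℝ, 0 < α → ∀ (i : ι) (A : ℕ), ∀ᶠ k : ℕ in atTop, ∀ x : ℤ, |(|(x : ℝ)|) - α * b k| ≤ Real.log (b k) ^ A →
      ¬ P i x := by
  have h1 : ∀ᵐ α : ℝ, ∀ i : ι, 0 < α → ∀ A : ℕ, ∀ᶠ k : ℕ in atTop, ∀ x : ℤ,
      |(|(x : ℝ)|) - α * b k| ≤ Real.log (b k) ^ A → ¬ P i x := by
    rw [ae_all_iff]
    intro i
    filter_upwards [dilates (P := fun _ => P i) (fun _ => h i) b δ hδ hb] with α hα hα0 A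
    exact hα hα0 A 0
  filter_upwards [h1] with α hα hα0 i A
  exact hα i hα0 A

end Pool.Agent.Q319.WN
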