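import Pool.Agent.Q319.WN.Vec

/-!
# Integral polynomials with prescribed monomials, near the dilates of almost all real polynomials
-/

set_option autoImplicit false

namespace Pool.Agent.Q319.WN

open Finset MeasureTheory Filter Topology
open scoped ENNReal

variable {σ : Type}

/-- The polynomials `f 1, …, f s` with the coefficients `x (j, u)` at the monomials `u` of the finite sets `S j`. -/
noncomputable def system {s : ℕ} (S : Fin s → Finset (σ →₀ ℕ)) (x : (Σ j, ↥(S j)) → ℤ) (j : Fin s) :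
    MvPolynomial σ ℤ :=
  ∑ u : ↥(S j), MvPolynomial.monomial (u : σ →₀ ℕ) (x ⟨j, u⟩)

/-- The polynomial with the coefficients `x u` at the monomials `u` of the finite set `S`. -/
noncomputable def poly (S : Finset (σ →₀ ℕ)) (x : ↥S → ℤ) : MvPolynomial σ ℤ :=
  ∑ u : ↥S, MvPolynomial.monomial (u : σ →₀ ℕ) (x u)

lemma coeff_sum_mem (S : Finset (σ →₀ ℕ)) (x : ↥S → ℤ) (u : ↥S) : (poly S x).coeff u = x u := by
  classical
  unfold poly
  rw [MvPolynomial.coeff_sum, Finset.sum_eq_single u]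
  · rw [MvPolynomial.coeff_monomial, if_pos rfl]
  · intro v _ hv
    rw [MvPolynomial.coeff_monomial, if_neg]
    exact fun h => hv (Subtype.ext h)
  · intro h
    exact absurd (Finset.mem_univ u) h

lemma coeff_sum_not (S : Finset (σ →₀ ℕ)) (x : ↥S → ℤ) {m : σ →₀ ℕ} (hm : m ∉ S) : (poly S x).coeff m = 0 := by
  classical
  unfold poly
  rw [MvPolynomial.coeff_sum]
  apply Finset.sum_eq_zero
  intro v _
  rw [MvPolynomial.coeff_monomial, if_neg]
  intro h
  apply hm
  rw [← h]
  exact v.2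

lemma poly_surj (S : Finset (σ →₀ ℕ)) (f : MvPolynomial σ ℤ) (hf : f.support ⊆ S) :
    poly S (fun u => f.coeff u) = f := by
  classical
  ext m
  by_cases hm : m ∈ S
  · exact coeff_sum_mem S _ ⟨m, hm⟩
  · rw [coeff_sum_not S _ hm]
    symm
    rw [← MvPolynomial.notMem_support_iff]
    exact fun h => hm (hf h)

/-- The number of systems of a bounded height with a property. -/
lemma ncard_system {s : ℕ} (S : Fin s → Finset (σ →₀ ℕ)) (H : ℕ) (Q : (Fin s → MvPolynomial σ ℤ) → Prop) :
    {f : Fin s → MvPolynomial σ ℤ | (∀ j, (f j).support ⊆ S j ∧ ∀ m, |(f j).coeff m| ≤ (H : ℤ)) ∧ Q f}.ncard =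
      {x : (Σ j, ↥(S j)) → ℤ | (∀ i, |x i| ≤ (H : ℤ)) ∧ Q (system S x)}.ncard := by
  classical
  have hs : ∀ x j, system S x j = poly (S j) (fun u => x ⟨j, u⟩) := fun _ _ => rfl
  have hinj : Function.Injective (system S) := by
    intro x y h
    funext ⟨j, u⟩
    have h1 := congrArg (fun g : MvPolynomial σ ℤ => g.coeff u) (congrFun h j)
    simp only [hs] at h1
    rwa [coeff_sum_mem, coeff_sum_mem] at h1
  rw [← Set.ncard_image_of_injective _ hinj]
  congr 1
  ext f
  constructor
  · rintro ⟨h1, h2⟩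
    refine ⟨fun i => (f i.1).coeff i.2, ⟨fun i => (h1 i.1).2 _, ?_⟩, ?_⟩
    · have : system S (fun i => (f i.1).coeff i.2) = f := by
        funext j
        rw [hs]
        exact poly_surj (S j) (f j) (h1 j).1
      rwa [this]
    · funext j
      rw [hs]
      exact poly_surj (S j) (f j) (h1 j).1
  · rintro ⟨x, ⟨h1, h2⟩, rfl⟩
    refine ⟨fun j => ⟨fun m hm => ?_, fun m => ?_⟩, h2⟩
    · by_contra hcon
      rw [MvPolynomial.mem_support_iff, hs, coeff_sum_not _ _ hcon] at hm
      exact hm rfl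
    · rw [hs]
      by_cases hm : m ∈ S j
      · have := coeff_sum_mem (S j) (fun u => x ⟨j, u⟩) ⟨m, hm⟩
        simp only at this
        rw [this]
        exact h1 _
      · rw [coeff_sum_not _ _ hm, abs_zero]
        exact_mod_cast Nat.zero_le H

lemma ncard_poly (S : Finset (σ →₀ ℕ)) (H : ℕ) (Q : MvPolynomial σ ℤ → Prop) :
    {f : MvPolynomial σ ℤ | (f.support ⊆ S ∧ ∀ m, |f.coeff m| ≤ (H : ℤ)) ∧ Q f}.ncard =
      {x : ↥S → ℤ | (∀ i, |x i| ≤ (H : ℤ)) ∧ Q (poly S x)}.ncard := by
  classical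
  have hinj : Function.Injective (poly S) := by
    intro x y h
    funext u
    have h1 := congrArg (fun g : MvPolynomial σ ℤ => g.coeff u) h
    rwa [coeff_sum_mem, coeff_sum_mem] at h1
  rw [← Set.ncard_image_of_injective _ hinj]
  congr 1
  ext f
  constructor
  · rintro ⟨h1, h2⟩
    refine ⟨fun i => f.coeff i, ⟨fun i => h1.2 _, ?_⟩, poly_surj S f h1.1⟩
    rwa [poly_surj S f h1.1]
  · rintro ⟨x, ⟨h1, h2⟩, rfl⟩
    refine ⟨⟨fun m hm => ?_, fun m => ?_⟩, h2⟩
    · by_contra hcon
      rw [MvPolynomial.mem_support_iff, coeff_sum_not _ _ hcon] at hm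
      exact hm rfl
    · by_cases hm : m ∈ S
      · have := coeff_sum_mem S x ⟨m, hm⟩
        simp only at this
        rw [this]
        exact h1 _
      · rw [coeff_sum_not _ _ hm, abs_zero]
        exact_mod_cast Nat.zero_le H

/-- The monomials of degree `d` in `n + 1` variables. -/
def mons (n d : ℕ) : Finset (Fin (n + 1) →₀ ℕ) := Finset.finsuppAntidiag Finset.univ d

lemma mem_mons {n d : ℕ} {u : Fin (n + 1) →₀ ℕ} : u ∈ mons n d ↔ ∑ i, u i = d := by
  unfold mons
  rw [Finset.mem_finsuppAntidiag]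
  simp

lemma weight_sum {n : ℕ} (u : Fin (n + 1) →₀ ℕ) :
    (Finsupp.weight (1 : Fin (n + 1) → ℕ)) u = ∑ i, u i := by
  rw [Finsupp.weight_apply, Finsupp.sum_fintype _ _ (by simp)]
  simp

lemma homog_iff {n d : ℕ} (f : MvPolynomial (Fin (n + 1)) ℤ) : f.IsHomogeneous d ↔ f.support ⊆ mons n d := by
  classical
  constructor
  · intro h u hu
    rw [mem_mons]
    have h1 := h (MvPolynomial.mem_support_iff.1 hu)
    rwa [weight_sum] at h1
  · intro h u hu
    have h1 := h (MvPolynomial.mem_support_iff.2 hu)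
    rw [mem_mons] at h1
    rwa [weight_sum]

end Pool.Agent.Q319.WN
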