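import Pool.Agent.Q319.WN.Form

/-!
# From proportions of polynomials to density zero of vectors of coefficients
-/

set_option autoImplicit false

namespace Pool.Agent.Q319.WN

open Finset MeasureTheory Filter Topology

/-- Proportions at a growing level give proportions at a fixed level. -/
theorem ratio_level {X : Type} (Fam : ℕ → Set X) (hfin : ∀ H, (Fam H).Finite) (A : X → Prop) (App : ℕ → X → Prop)
    (mono : ∀ M m x, 1 ≤ M → M ≤ m → App m x → App M x) (m : ℕ → ℕ) (hm : Tendsto m atTop atTop)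
    (hlim : Tendsto (fun H : ℕ => (({f | f ∈ Fam H ∧ A f ∧ App (m H) f} : Set X).ncard : ℝ) /
      (({f | f ∈ Fam H ∧ A f} : Set X).ncard : ℝ)) atTop (𝓝 1)) (M : ℕ) (hM : 1 ≤ M) :
    Tendsto (fun H : ℕ => (({f | f ∈ Fam H ∧ A f ∧ App M f} : Set X).ncard : ℝ) /
      (({f | f ∈ Fam H ∧ A f} : Set X).ncard : ℝ)) atTop (𝓝 1) := by
  refine tendsto_of_tendsto_of_tendsto_of_le_of_le' hlim tendsto_const_nhds ?_ ?_
  · filter_upwards [tendsto_atTop.mp hm M] with H hH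
    apply div_le_div_of_nonneg_right _ (Nat.cast_nonneg _)
    have hsub : {f | f ∈ Fam H ∧ A f ∧ App (m H) f} ⊆ {f | f ∈ Fam H ∧ A f ∧ App M f} :=
      fun f hf => ⟨hf.1, hf.2.1, mono M _ f hM hH hf.2.2⟩
    exact_mod_cast Set.ncard_le_ncard hsub ((hfin H).subset (fun f hf => hf.1))
  · filter_upwards with H
    apply div_le_one_of_le₀ _ (Nat.cast_nonneg _)
    have hsub : {f | f ∈ Fam H ∧ A f ∧ App M f} ⊆ {f | f ∈ Fam H ∧ A f} := fun f hf => ⟨hf.1, hf.2.1⟩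
    exact_mod_cast Set.ncard_le_ncard hsub ((hfin H).subset (fun f hf => hf.1))

variable {σ : Type}

lemma box_poly_finite (S : Finset (σ →₀ ℕ)) (H : ℕ) :
    {f : MvPolynomial σ ℤ | f.support ⊆ S ∧ ∀ m, |f.coeff m| ≤ (H : ℤ)}.Finite := by
  classical
  refine Set.Finite.subset ((box_finite (fun _ : ↥S → ℤ => True) H).image (poly S)) ?_
  rintro f ⟨h1, h2⟩
  exact ⟨fun u => f.coeff u, ⟨fun u => h2 _, trivial⟩, poly_surj S f h1⟩

lemma box_system_finite {s : ℕ} (S : Fin s → Finset (σ →₀ ℕ)) (H : ℕ) :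
    {f : Fin s → MvPolynomial σ ℤ | ∀ j, (f j).support ⊆ S j ∧ ∀ m, |(f j).coeff m| ≤ (H : ℤ)}.Finite := by
  have h := Set.Finite.pi' (t := fun j : Fin s => {f : MvPolynomial σ ℤ | f.support ⊆ S j ∧
    ∀ m, |f.coeff m| ≤ (H : ℤ)}) fun j => box_poly_finite (S j) H
  exact h.subset fun f hf j => hf j

theorem null_system {s : ℕ} (S : Fin s → Finset (σ →₀ ℕ)) (A B : (Fin s → MvPolynomial σ ℤ) → Prop)
    (h : Tendsto (fun H : ℕ =>
      (({f | f ∈ {f : Fin s → MvPolynomial σ ℤ | ∀ j, (f j).support ⊆ S j ∧ ∀ m, |(f j).coeff m| ≤ (H : ℤ)} ∧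
        A f ∧ B f} : Set _).ncard : ℝ) /
      (({f | f ∈ {f : Fin s → MvPolynomial σ ℤ | ∀ j, (f j).support ⊆ S j ∧ ∀ m, |(f j).coeff m| ≤ (H : ℤ)} ∧
        A f} : Set _).ncard : ℝ)) atTop (𝓝 1)) :
    NullBox (fun x => A (system S x) ∧ ¬ B (system S x)) := by
  refine null_of_ratio (h.congr fun H => ?_)
  have h1 := ncard_system S H A
  have h2 := ncard_system S H (fun f => A f ∧ B f)
  rw [← h1, ← h2]
  rfl

theorem null_poly (S : Finset (σ →₀ ℕ)) (A B : MvPolynomial σ ℤ → Prop)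
    (h : Tendsto (fun H : ℕ =>
      (({f | f ∈ {f : MvPolynomial σ ℤ | f.support ⊆ S ∧ ∀ m, |f.coeff m| ≤ (H : ℤ)} ∧ A f ∧ B f} : Set _).ncard : ℝ) /
      (({f | f ∈ {f : MvPolynomial σ ℤ | f.support ⊆ S ∧ ∀ m, |f.coeff m| ≤ (H : ℤ)} ∧ A f} : Set _).ncard : ℝ))
      atTop (𝓝 1)) :
    NullBox (fun x => A (poly S x) ∧ ¬ B (poly S x)) := by
  refine null_of_ratio (h.congr fun H => ?_)
  have h1 := ncard_poly S H A
  have h2 := ncard_poly S H (fun f => A f ∧ B f)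
  rw [← h1, ← h2]
  rfl

end Pool.Agent.Q319.WN
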