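import Pool.Agent.Q319.WN.Form2

/-! # Multihomogeneous forms -/

set_option autoImplicit false

namespace Pool.Agent.Q319.WN

open Finset

/-- The monomials of multidegree `d` in the `k` blocks of `n i + 1` variables. -/
def multi {k : ℕ} (n d : Fin k → ℕ) : Finset ((Σ i : Fin k, Fin (n i + 1)) →₀ ℕ) :=
  (Finset.finsuppAntidiag Finset.univ (∑ i, d i)).filter fun s => ∀ i : Fin k, ∑ j : Fin (n i + 1), s ⟨i, j⟩ = d i

lemma mem_multi {k : ℕ} {n d : Fin k → ℕ} {s : (Σ i : Fin k, Fin (n i + 1)) →₀ ℕ} :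
    s ∈ multi n d ↔ ∀ i : Fin k, ∑ j : Fin (n i + 1), s ⟨i, j⟩ = d i := by
  unfold multi
  rw [mem_filter, Finset.mem_finsuppAntidiag]
  constructor
  · exact fun h => h.2
  · intro h
    refine ⟨⟨?_, Finset.subset_univ _⟩, h⟩
    rw [Fintype.sum_sigma]
    exact Finset.sum_congr rfl fun i _ => h i

lemma multi_iff {k : ℕ} {n d : Fin k → ℕ} (f : MvPolynomial (Σ i : Fin k, Fin (n i + 1)) ℤ) :
    (∀ s ∈ f.support, ∀ i : Fin k, ∑ j : Fin (n i + 1), s ⟨i, j⟩ = d i) ↔ f.support ⊆ multi n d := by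
  constructor
  · intro h s hs
    exact mem_multi.2 (h s hs)
  · intro h s hs
    exact mem_multi.1 (h hs)

end Pool.Agent.Q319.WN
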