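import Pool.Agent.Q319.WN.Weak

/-!
# Properties of integers of density zero at the multiples of almost all real numbers
-/

set_option autoImplicit false

namespace Pool.Agent.Q319.WN

open Finset MeasureTheory Filter

/-- For `0 < θ < 1` there is `c > 0` such that for all `ε > 0`, all real `w ≥ 0` and all large `N` the following holds for
all real `y` with `N ^ (1 - θ) ≤ y ≤ 2 N ^ (1 - θ)` outside a set of measure at most `N ^ (1 - θ - c)`: for all `k ≤ N ^ θ`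
with at most `ε N ^ θ` exceptions NO integer `x` with `||x| - k y| ≤ w` has the property `P`. -/
def NullAtMultiples (P : ℤ → Prop) : Prop :=
  ∀ θ : ℝ, 0 < θ → θ < 1 → ∃ c : ℝ, 0 < c ∧ ∀ ε w : ℝ, 0 < ε → 0 ≤ w → ∃ N₀ : ℕ, ∀ N : ℕ, N₀ ≤ N →
    ∃ E : Set ℝ, MeasurableSet E ∧ volume E ≤ ENNReal.ofReal ((N : ℝ) ^ (1 - θ - c)) ∧
      ∀ y : ℝ, (N : ℝ) ^ (1 - θ) ≤ y → y ≤ 2 * (N : ℝ) ^ (1 - θ) → y ∉ E →
        (exceptions ((N : ℝ) ^ θ) y w P : ℝ) ≤ ε * (N : ℝ) ^ θ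

/-- The integers with the property `P` have density zero. -/
def Null (P : ℤ → Prop) : Prop :=
  ∀ ε : ℝ, 0 < ε → ∃ X₀ : ℕ, ∀ X : ℕ, X₀ ≤ X → ({x : ℤ | x.natAbs ≤ X ∧ P x}.ncard : ℝ) ≤ ε * X

theorem Null.mono {P Q : ℤ → Prop} (h : Null P) (hQ : ∀ x, Q x → P x) : Null Q := by
  intro ε hε
  obtain ⟨X₀, h1⟩ := h ε hε
  refine ⟨X₀, fun X hX => le_trans ?_ (h1 X hX)⟩
  refine Nat.cast_le.2 (Set.ncard_le_ncard (fun x hx => ⟨hx.1, hQ x hx.2⟩) ?_)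
  refine (Set.finite_Icc (-(X : ℤ)) X).subset fun x hx => ?_
  have h1 := hx.1
  rw [Set.mem_Icc]
  omega

theorem null_multiples {P : ℤ → Prop} (h : Null P) : NullAtMultiples P := by
  classical
  intro θ hθ hθ1
  obtain ⟨c, hc, hcθ, N₁, h1⟩ := Pool.Agent.Q319.DR.mult_gen θ hθ hθ1
  refine ⟨c, hc, fun ε w hε hw => ?_⟩
  obtain ⟨X₀, h2⟩ := h (ε / (40 * (w + 1))) (by positivity)
  have hex : ∀ᶠ Y : ℝ in atTop, 16 ≤ Y ∧ w + 1 ≤ Y ^ c ∧ 2 / ε ≤ Y ^ c := by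
    have h3 := tendsto_rpow_atTop hc
    filter_upwards [eventually_ge_atTop 16, h3.eventually_ge_atTop (w + 1), h3.eventually_ge_atTop (2 / ε)] with Y a b d
    exact ⟨a, b, d⟩
  obtain ⟨N₂, h3⟩ := (tendsto_natCast_atTop_atTop.eventually hex).exists_forall_of_atTop
  refine ⟨N₁ + N₂ + X₀, fun N hN => ?_⟩
  obtain ⟨g1, g2, g3⟩ := h3 N (by omega)
  have hN0 : (0 : ℝ) < N := by linarith
  have hN1 : (1 : ℝ) ≤ N := by linarith
  set Bd : Finset ℕ := (Icc 1 (4 * N)).filter (fun n => ∃ x : ℤ, |(x : ℝ)| = n ∧ P x) with hBd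
  have hBc : (Bd.card : ℝ) ≤ ε / (40 * (w + 1)) * (4 * N) := by
    have h4 : (Bd.card : ℝ) ≤ ({x : ℤ | x.natAbs ≤ 4 * N ∧ P x}.ncard : ℝ) := by
      refine Pool.Agent.Q319.DR.nat_of_int P _ Bd (fun n hn => by
        rw [hBd, mem_filter] at hn
        exact hn.2) fun F hF => ?_
      rw [← Set.ncard_coe_finset]
      apply Nat.cast_le.2
      refine Set.ncard_le_ncard (fun x hx => ?_) ?_
      · obtain ⟨h1, h2⟩ := hF x hx
        refine ⟨?_, h1⟩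
        rw [mem_image] at h2
        obtain ⟨n, hn, h3⟩ := h2
        rw [hBd, mem_filter] at hn
        have h4 := (mem_Icc.1 hn.1).2
        rw [Int.abs_eq_natAbs] at h3
        omega
      · refine (Set.finite_Icc (-((4 * N : ℕ) : ℤ)) ((4 * N : ℕ) : ℤ)).subset fun x hx => ?_
        have h1 := hx.1
        rw [Set.mem_Icc]
        omega
    have h5 := h2 (4 * N) (by omega)
    push_cast at h5
    exact h4.trans h5
  have hwc : w ≤ (N : ℝ) ^ c := by linarith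
  obtain ⟨E, hE1, hE2, hE3⟩ := h1 N (by omega) Bd w hw hwc
  refine ⟨E, hE1, hE2, fun y hy1 hy2 hyE => ?_⟩
  have hθ0 : 0 < (1 - θ) / 2 := by linarith
  have hh1 : 1 < (N : ℝ) ^ ((1 - θ) / 2) := Real.one_lt_rpow (by linarith) hθ0
  have hsq : (N : ℝ) ^ (1 - θ) = (N : ℝ) ^ ((1 - θ) / 2) * (N : ℝ) ^ ((1 - θ) / 2) := by
    rw [← Real.rpow_add hN0]; congr 1; ring
  have hw2 : w ≤ (N : ℝ) ^ ((1 - θ) / 2) := hwc.trans (Real.rpow_le_rpow_of_exponent_le hN1 hcθ)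
  have hwN : w ≤ N := by
    refine hw2.trans ?_
    calc (N : ℝ) ^ ((1 - θ) / 2) ≤ (N : ℝ) ^ (1 : ℝ) := Real.rpow_le_rpow_of_exponent_le hN1 (by linarith)
      _ = N := Real.rpow_one _
  have hwy : w < (N : ℝ) ^ (1 - θ) := by rw [hsq]; nlinarith
  have hsub : (exceptions ((N : ℝ) ^ θ) y w P : ℝ) ≤
      (((Icc 1 ⌊(N : ℝ) ^ θ⌋₊).filter (fun k : ℕ => ∃ q ∈ Bd, |(q : ℝ) - k * y| ≤ w)).card : ℝ) := by
    unfold exceptions
    apply Nat.cast_le.2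
    apply card_le_card
    intro k hk
    rw [mem_filter] at hk ⊢
    obtain ⟨hk1, x, hx1, hx2⟩ := hk
    refine ⟨hk1, x.natAbs, ?_, ?_⟩
    · have hxa : ((x.natAbs : ℕ) : ℝ) = |(x : ℝ)| := by rw [Nat.cast_natAbs, Int.cast_abs]
      rw [hBd, mem_filter, mem_Icc]
      obtain ⟨h5, h6⟩ := abs_le.1 hx1
      obtain ⟨hk2, hk3⟩ := mem_Icc.1 hk1
      have hk4 : (1 : ℝ) ≤ k := by exact_mod_cast hk2
      have hk5 : (k : ℝ) ≤ (N : ℝ) ^ θ := (Nat.le_floor_iff (by positivity)).1 hk3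
      have hYY : (N : ℝ) ^ θ * (N : ℝ) ^ (1 - θ) = N := by
        rw [← Real.rpow_add hN0]; simp
      have hY0 : 0 < (N : ℝ) ^ (1 - θ) := by positivity
      have hky1 : (N : ℝ) ^ (1 - θ) ≤ k * y := by nlinarith
      have hky2 : (k : ℝ) * y ≤ 2 * N := by
        calc (k : ℝ) * y ≤ (N : ℝ) ^ θ * (2 * (N : ℝ) ^ (1 - θ)) := by
              apply mul_le_mul hk5 hy2 (by linarith) (by positivity)
          _ = 2 * ((N : ℝ) ^ θ * (N : ℝ) ^ (1 - θ)) := by ring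
          _ = 2 * N := by rw [hYY]
      refine ⟨⟨?_, ?_⟩, x, hxa.symm, hx2⟩
      · have h7 : (0 : ℝ) < ((x.natAbs : ℕ) : ℝ) := by rw [hxa]; linarith
        exact_mod_cast h7
      · have h7 : ((x.natAbs : ℕ) : ℝ) ≤ ((4 * N : ℕ) : ℝ) := by rw [hxa]; push_cast; linarith
        exact_mod_cast h7
    · rw [Nat.cast_natAbs, Int.cast_abs]
      exact hx1
  refine hsub.trans ((hE3 y hy1 hy2 hyE).trans ?_)
  have hθp : 0 < (N : ℝ) ^ θ := by positivity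
  have hw1 : 0 < w + 1 := by linarith
  have t1 : 5 * (w + 1) * ((Bd.card : ℝ) / N) * (N : ℝ) ^ θ ≤ (ε / 2) * (N : ℝ) ^ θ := by
    apply mul_le_mul_of_nonneg_right _ hθp.le
    have e1 : (Bd.card : ℝ) / N ≤ ε / (10 * (w + 1)) := by
      rw [div_le_iff₀ hN0]
      refine hBc.trans (le_of_eq ?_)
      field_simp
      ring
    calc 5 * (w + 1) * ((Bd.card : ℝ) / N) ≤ 5 * (w + 1) * (ε / (10 * (w + 1))) := by gcongr
      _ = ε / 2 := by field_simp; ring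
  have t2 : (N : ℝ) ^ (θ - c) ≤ (ε / 2) * (N : ℝ) ^ θ := by
    have hcp : 0 < (N : ℝ) ^ c := by positivity
    rw [Real.rpow_sub hN0, div_le_iff₀ hcp]
    rw [div_le_iff₀ hε] at g3
    nlinarith
  calc _ ≤ (ε / 2) * (N : ℝ) ^ θ + (ε / 2) * (N : ℝ) ^ θ := add_le_add t1 t2
    _ = _ := by ring

end Pool.Agent.Q319.WN
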