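import Mathlib

/-!
# Properties of integer vectors of density zero near the dilates of almost all real vectors
-/

set_option autoImplicit false

namespace Pool.Agent.Q319.WN

open Finset MeasureTheory Filter Topology
open scoped ENNReal

/-- All coordinates of the integer vector `x` are within `w` of those of the real vector `z`. -/
def Near {ι : Type} (w : ℝ) (z : ι → ℝ) (x : ι → ℤ) : Prop := ∀ i, |(x i : ℝ) - z i| ≤ w

/-- Some integer vector within `w` of `z` has the property `P`. -/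
def Hit {ι : Type} (P : (ι → ℤ) → Prop) (w : ℝ) (z : ι → ℝ) : Prop := ∃ x : ι → ℤ, Near w z x ∧ P x

/-- The integer vectors with the property `P` have density zero in the boxes `max |x i| ≤ H`. -/
def NullBox {ι : Type} [Fintype ι] (P : (ι → ℤ) → Prop) : Prop :=
  ∀ ε : ℝ, 0 < ε → ∃ H₀ : ℕ, ∀ H : ℕ, H₀ ≤ H →
    ({x : ι → ℤ | (∀ i, |x i| ≤ (H : ℤ)) ∧ P x}.ncard : ℝ) ≤ ε * (H : ℝ) ^ Fintype.card ι

/-- `Multiples P`: for all `ε > 0` and `w` and all large `Y` the following holds for every `R ≥ 1`: for all real vectors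
`y` with `max |y i| ≤ Y` outside a set of measure at most `ε Y ^ m`, `m` the dimension, for all `n ≤ R` with at most
`ε R` exceptions NO integer vector within `w` of `n y` has the property `P`. -/
def MultiplesVec {ι : Type} [Fintype ι] (P : (ι → ℤ) → Prop) : Prop :=
  ∀ ε w : ℝ, 0 < ε → ∃ Y₀ : ℝ, ∀ Y : ℝ, Y₀ ≤ Y → ∀ R : ℕ, 1 ≤ R →
    ∃ E : Set (ι → ℝ), MeasurableSet E ∧ volume E ≤ ENNReal.ofReal (ε * Y ^ Fintype.card ι) ∧
      ∀ y : ι → ℝ, (∀ i, |y i| ≤ Y) → y ∉ E →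
        ({n : ℕ | 1 ≤ n ∧ n ≤ R ∧ Hit P w (fun i => n * y i)}.ncard : ℝ) ≤ ε * R

/-- `DilatesVec P`: for every real sequence `v k → ∞` there are `K 0 < K 1 < ...` such that for almost every real vector `ρ`,
every `m` and every `w` the proportion of the `k < K j` for which some integer vector within `w` of `v k ρ` has the
property `P m` tends to `0` as `j → ∞`. -/
def DilatesVec {ι : Type} [Fintype ι] (P : ℕ → (ι → ℤ) → Prop) : Prop :=
  ∀ v : ℕ → ℝ, Tendsto v atTop atTop → ∃ K : ℕ → ℕ, StrictMono K ∧ ∀ᵐ ρ : ι → ℝ, ∀ (m : ℕ) (w : ℝ),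
    Tendsto (fun j : ℕ => ({k : ℕ | k < K j ∧ Hit (P m) w (fun i => v k * ρ i)}.ncard : ℝ) / K j) atTop (𝓝 0)

/-- `FastDilatesVec P`: there are real numbers `g k` such that for all `v k ≥ g k` and almost every real vector `ρ`, for all
large `k`, NO integer vector within `k` of `v k ρ` has one of the properties `P m`, `m ≤ k`. -/
def FastDilatesVec {ι : Type} [Fintype ι] (P : ℕ → (ι → ℤ) → Prop) : Prop :=
  ∃ g : ℕ → ℝ, ∀ v : ℕ → ℝ, (∀ k, g k ≤ v k) → ∀ᵐ ρ : ι → ℝ, ∀ᶠ k : ℕ in atTop, ∀ m : ℕ, m ≤ k →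
    ¬ Hit (P m) k (fun i => v k * ρ i)

lemma box_finite {ι : Type} [Fintype ι] (P : (ι → ℤ) → Prop) (H : ℕ) :
    {x : ι → ℤ | (∀ i, |x i| ≤ (H : ℤ)) ∧ P x}.Finite := by
  classical
  refine (Set.Finite.pi' (t := fun _ : ι => Set.Icc (-(H : ℤ)) H) fun _ => Set.finite_Icc _ _).subset ?_
  rintro x ⟨hx, -⟩ i
  exact Set.mem_Icc.2 (abs_le.1 (hx i))

/-- The set of the real vectors of the box `max |ρ i| ≤ B` for which some integer vector within `w` of `v ρ` has the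
property `P`, as a finite union of boxes. -/
lemma hit_cover {ι : Type} [Fintype ι] (P : (ι → ℤ) → Prop) {v B w : ℝ} (hv : 0 < v) (H : ℕ)
    (hH : v * B + w ≤ H) :
    {ρ : ι → ℝ | (∀ i, |ρ i| ≤ B) ∧ Hit P w (fun i => v * ρ i)} ⊆
      ⋃ x ∈ (box_finite P H).toFinset, Set.Icc (fun i => ((x i : ℝ) - w) / v) (fun i => ((x i : ℝ) + w) / v) := by
  rintro ρ ⟨h1, x, hx, hP⟩
  simp only [Set.mem_iUnion]
  refine ⟨x, ?_, ?_⟩
  · rw [Set.Finite.mem_toFinset]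
    refine ⟨fun i => ?_, hP⟩
    have h2 := abs_le.1 (hx i)
    have h3 := abs_le.1 (h1 i)
    have h4 : v * ρ i ≤ v * B := mul_le_mul_of_nonneg_left h3.2 hv.le
    have h5 : v * (-B) ≤ v * ρ i := mul_le_mul_of_nonneg_left h3.1 hv.le
    have h6 : |(x i : ℝ)| ≤ H := by
      rw [abs_le]
      constructor <;> linarith
    exact_mod_cast h6
  · rw [Set.mem_Icc]
    refine ⟨fun i => ?_, fun i => ?_⟩
    · rw [div_le_iff₀ hv]
      have h2 := abs_le.1 (hx i)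
      linarith
    · rw [le_div_iff₀ hv]
      have h2 := abs_le.1 (hx i)
      linarith

lemma vol_box {ι : Type} [Fintype ι] (a : ι → ℝ) {w v : ℝ} (hv : 0 < v) (hw : 0 ≤ w) :
    volume (Set.Icc (fun i => (a i - w) / v) (fun i => (a i + w) / v)) =
      ENNReal.ofReal ((2 * w / v) ^ Fintype.card ι) := by
  rw [Real.volume_Icc_pi]
  have : ∀ i : ι, (a i + w) / v - (a i - w) / v = 2 * w / v := fun i => by ring
  simp only [this]
  rw [Finset.prod_const, Finset.card_univ, ENNReal.ofReal_pow (by positivity)]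

/-- The set of the boxes with a measurable superset, and its measure. -/
noncomputable def cover {ι : Type} [Fintype ι] (P : (ι → ℤ) → Prop) (v w : ℝ) (H : ℕ) : Set (ι → ℝ) :=
  ⋃ x ∈ (box_finite P H).toFinset, Set.Icc (fun i => ((x i : ℝ) - w) / v) (fun i => ((x i : ℝ) + w) / v)

lemma cover_meas {ι : Type} [Fintype ι] (P : (ι → ℤ) → Prop) (v w : ℝ) (H : ℕ) : MeasurableSet (cover P v w H) :=
  Finset.measurableSet_biUnion _ fun _ _ => measurableSet_Icc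

lemma cover_vol {ι : Type} [Fintype ι] (P : (ι → ℤ) → Prop) {v w : ℝ} (hv : 0 < v) (hw : 0 ≤ w) (H : ℕ) :
    volume (cover P v w H) ≤ ENNReal.ofReal
      (({x : ι → ℤ | (∀ i, |x i| ≤ (H : ℤ)) ∧ P x}.ncard : ℝ) * (2 * w / v) ^ Fintype.card ι) := by
  refine (measure_biUnion_finset_le _ _).trans ?_
  rw [Finset.sum_congr rfl (fun x _ => vol_box (fun i => (x i : ℝ)) hv hw), Finset.sum_const, nsmul_eq_mul,
    ENNReal.ofReal_mul (by positivity), ENNReal.ofReal_natCast, Set.ncard_eq_toFinset_card _ (box_finite P H)]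

lemma NullBox.mono {ι : Type} [Fintype ι] {P Q : (ι → ℤ) → Prop} (h : NullBox P) (hQ : ∀ x, Q x → P x) :
    NullBox Q := by
  intro ε hε
  obtain ⟨H₀, h1⟩ := h ε hε
  refine ⟨H₀, fun H hH => le_trans ?_ (h1 H hH)⟩
  exact Nat.cast_le.2 (Set.ncard_le_ncard (fun x hx => ⟨hx.1, hQ x hx.2⟩) (box_finite P H))

lemma NullBox.or {ι : Type} [Fintype ι] {P Q : (ι → ℤ) → Prop} (h : NullBox P) (h' : NullBox Q) :
    NullBox (fun x => P x ∨ Q x) := by
  intro ε hε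
  obtain ⟨H₀, h1⟩ := h (ε / 2) (by positivity)
  obtain ⟨H₁, h2⟩ := h' (ε / 2) (by positivity)
  refine ⟨H₀ + H₁, fun H hH => ?_⟩
  have h3 : {x : ι → ℤ | (∀ i, |x i| ≤ (H : ℤ)) ∧ (P x ∨ Q x)} =
      {x : ι → ℤ | (∀ i, |x i| ≤ (H : ℤ)) ∧ P x} ∪ {x : ι → ℤ | (∀ i, |x i| ≤ (H : ℤ)) ∧ Q x} := by
    ext x
    simp only [Set.mem_union, Set.mem_ofPred_eq]
    tauto
  have h4 := Set.ncard_union_le {x : ι → ℤ | (∀ i, |x i| ≤ (H : ℤ)) ∧ P x}
    {x : ι → ℤ | (∀ i, |x i| ≤ (H : ℤ)) ∧ Q x}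
  rw [← h3] at h4
  have h5 : (({x : ι → ℤ | (∀ i, |x i| ≤ (H : ℤ)) ∧ (P x ∨ Q x)}.ncard : ℕ) : ℝ) ≤
      ({x : ι → ℤ | (∀ i, |x i| ≤ (H : ℤ)) ∧ P x}.ncard : ℝ) +
      ({x : ι → ℤ | (∀ i, |x i| ≤ (H : ℤ)) ∧ Q x}.ncard : ℝ) := by exact_mod_cast h4
  have h6 := h1 H (by omega)
  have h7 := h2 H (by omega)
  linarith

lemma NullBox.upto {ι : Type} [Fintype ι] {P : ℕ → (ι → ℤ) → Prop} (h : ∀ m, NullBox (P m)) (j : ℕ) :
    NullBox (fun x => ∃ m, m ≤ j ∧ P m x) := by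
  induction j with
  | zero =>
    refine (h 0).mono ?_
    rintro x ⟨m, hm, hx⟩
    obtain rfl : m = 0 := by omega
    exact hx
  | succ j ih =>
    refine (ih.or (h (j + 1))).mono ?_
    rintro x ⟨m, hm, hx⟩
    by_cases hmj : m = j + 1
    · rw [hmj] at hx
      exact Or.inr hx
    · exact Or.inl ⟨m, by omega, hx⟩

/-- Measure of the real vectors near which the property occurs. -/
lemma hit_null {ι : Type} [Fintype ι] {P : (ι → ℤ) → Prop} (h : NullBox P) {w ε : ℝ}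
    (hw : 0 ≤ w) (hε : 0 < ε) :
    ∃ X₀ : ℝ, 1 ≤ X₀ ∧ ∀ v B : ℝ, 0 < v → 0 < B → X₀ ≤ v * B → ∃ E : Set (ι → ℝ), MeasurableSet E ∧
      volume E ≤ ENNReal.ofReal (ε * B ^ Fintype.card ι) ∧
      ∀ ρ : ι → ℝ, (∀ i, |ρ i| ≤ B) → Hit P w (fun i => v * ρ i) → ρ ∈ E := by
  set m := Fintype.card ι
  obtain ⟨H₀, h1⟩ := h (ε / (6 * (w + 1)) ^ m) (by positivity)
  refine ⟨H₀ + w + 2, by have : (0 : ℝ) ≤ H₀ := Nat.cast_nonneg _; linarith, fun v B hv0 hB0 hv => ?_⟩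
  have hH0 : (0 : ℝ) ≤ H₀ := Nat.cast_nonneg _
  set H : ℕ := ⌈v * B + w⌉₊ with hHd
  have hc1 : v * B + w ≤ H := Nat.le_ceil _
  have hc2 : (H : ℝ) ≤ 3 * (v * B) := by
    have : (H : ℝ) < v * B + w + 1 := Nat.ceil_lt_add_one (by positivity)
    linarith
  have hHH : H₀ ≤ H := by
    have : (H₀ : ℝ) ≤ H := by linarith
    exact_mod_cast this
  refine ⟨cover P v w H, cover_meas _ _ _ _, (cover_vol P hv0 hw H).trans (ENNReal.ofReal_le_ofReal ?_), ?_⟩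
  · have h2 := h1 H hHH
    have h3 : (0 : ℝ) ≤ 2 * w / v := by positivity
    calc (({x : ι → ℤ | (∀ i, |x i| ≤ (H : ℤ)) ∧ P x}.ncard : ℝ) * (2 * w / v) ^ m)
        ≤ (ε / (6 * (w + 1)) ^ m * (3 * (v * B)) ^ m) * (2 * w / v) ^ m := by
          refine mul_le_mul_of_nonneg_right (h2.trans ?_) (by positivity)
          exact mul_le_mul_of_nonneg_left (pow_le_pow_left₀ (by positivity) hc2 _) (by positivity)
      _ = ε * ((3 * (v * B)) * (2 * w / v) / (6 * (w + 1))) ^ m := by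
          rw [div_pow ((3 * (v * B)) * (2 * w / v)), mul_pow (3 * (v * B)) (2 * w / v)]
          ring
      _ ≤ ε * B ^ m := by
          refine mul_le_mul_of_nonneg_left (pow_le_pow_left₀ (by positivity) ?_ _) hε.le
          rw [div_le_iff₀ (by positivity)]
          have : (3 * (v * B)) * (2 * w / v) = 6 * B * w := by
            field_simp
            ring
          rw [this]
          nlinarith
  · intro ρ h2 h3
    exact hit_cover P hv0 H hc1 ⟨h2, h3⟩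

lemma Hit.mono {ι : Type} {P : (ι → ℤ) → Prop} {w w' : ℝ} (hw : w ≤ w') {z : ι → ℝ} (h : Hit P w z) :
    Hit P w' z := by
  obtain ⟨x, h1, h2⟩ := h
  exact ⟨x, fun i => (h1 i).trans hw, h2⟩

/-- Markov's inequality for the number of sets of a finite family which contain a point. -/
lemma markov {ι : Type} [Fintype ι] (S : Finset ℕ) (E : ℕ → Set (ι → ℝ)) (hE : ∀ k ∈ S, MeasurableSet (E k))
    {a δ : ℝ} (hδ : 0 < δ) (hS : 0 < S.card) (hv : ∀ k ∈ S, volume (E k) ≤ ENNReal.ofReal a) :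
    ∃ F : Set (ι → ℝ), MeasurableSet F ∧ volume F ≤ ENNReal.ofReal (a / δ) ∧
      ∀ y : ι → ℝ, y ∉ F → ({k : ℕ | k ∈ S ∧ y ∈ E k}.ncard : ℝ) ≤ δ * S.card := by
  classical
  set G : (ι → ℝ) → ℝ≥0∞ := fun y => ∑ k ∈ S, (E k).indicator (fun _ => (1 : ℝ≥0∞)) y with hG
  have hGm : Measurable G := by
    rw [hG]
    exact Finset.measurable_fun_sum _ fun k hk => measurable_const.indicator (hE k hk)
  have hS0 : (0 : ℝ) < S.card := by exact_mod_cast hS
  set c : ℝ≥0∞ := ENNReal.ofReal (δ * S.card) with hc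
  have hc0 : c ≠ 0 := by
    rw [hc]
    exact (ENNReal.ofReal_pos.2 (by positivity)).ne'
  have hct : c ≠ ∞ := ENNReal.ofReal_ne_top
  refine ⟨{y | c ≤ G y}, measurableSet_le measurable_const hGm, ?_, fun y hy => ?_⟩
  · have h1 := mul_meas_ge_le_lintegral (μ := volume) hGm c
    have h2 : ∫⁻ y, G y ≤ S.card * ENNReal.ofReal a := by
      rw [hG, lintegral_finsetSum' _ (fun k hk => (measurable_const.indicator (hE k hk)).aemeasurable)]
      calc ∑ k ∈ S, ∫⁻ y, (E k).indicator (fun _ => (1 : ℝ≥0∞)) y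
          ≤ ∑ _k ∈ S, ENNReal.ofReal a := by
            refine Finset.sum_le_sum fun k hk => ?_
            rw [lintegral_indicator (hE k hk), setLIntegral_const, one_mul]
            exact hv k hk
        _ = S.card * ENNReal.ofReal a := by rw [Finset.sum_const, nsmul_eq_mul]
    have h3 : c * volume {y | c ≤ G y} ≤ c * ENNReal.ofReal (a / δ) := by
      refine (h1.trans h2).trans (le_of_eq ?_)
      rw [hc, ← ENNReal.ofReal_mul (by positivity), ← ENNReal.ofReal_natCast, ← ENNReal.ofReal_mul (by positivity)]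
      congr 1
      field_simp
    exact (ENNReal.mul_le_mul_iff_right hc0 hct).1 h3
  · simp only [Set.mem_ofPred_eq, not_le] at hy
    have h1 : G y = (({k : ℕ | k ∈ S ∧ y ∈ E k}.ncard : ℕ) : ℝ≥0∞) := by
      have h2 : {k : ℕ | k ∈ S ∧ y ∈ E k} = ((S.filter fun k => y ∈ E k : Finset ℕ) : Set ℕ) := by
        ext k
        simp
      rw [h2, Set.ncard_coe_finset, hG]
      simp only [Set.indicator_apply]
      rw [Finset.sum_boole]
    rw [h1, hc] at hy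
    have h2 : ENNReal.ofReal (({k : ℕ | k ∈ S ∧ y ∈ E k}.ncard : ℕ) : ℝ) < ENNReal.ofReal (δ * S.card) := by
      rwa [ENNReal.ofReal_natCast]
    exact ((ENNReal.ofReal_lt_ofReal_iff (by positivity)).1 h2).le

theorem null_mult {ι : Type} [Fintype ι] {P : (ι → ℤ) → Prop} (h : NullBox P) : MultiplesVec P := by
  classical
  intro ε w hε
  obtain ⟨X₀, hX1, hX⟩ := hit_null h (w := max w 0) (ε := ε ^ 2) (le_max_right _ _) (by positivity)
  refine ⟨X₀, fun Y hY R hR => ?_⟩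
  have hY0 : 0 < Y := by linarith
  have hYY : 0 ≤ Y ^ Fintype.card ι := by positivity
  have hch : ∀ n : ℕ, ∃ E : Set (ι → ℝ), MeasurableSet E ∧
      (1 ≤ n → volume E ≤ ENNReal.ofReal (ε ^ 2 * Y ^ Fintype.card ι) ∧
      ∀ ρ : ι → ℝ, (∀ i, |ρ i| ≤ Y) → Hit P (max w 0) (fun i => n * ρ i) → ρ ∈ E) := by
    intro n
    by_cases hn : 1 ≤ n
    · have hn1 : (1 : ℝ) ≤ n := by exact_mod_cast hn
      obtain ⟨E, e1, e2, e3⟩ := hX n Y (by linarith) hY0 (by nlinarith)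
      exact ⟨E, e1, fun _ => ⟨e2, e3⟩⟩
    · exact ⟨∅, MeasurableSet.empty, fun h => absurd h hn⟩
  choose E hEm hE using hch
  have hcard : (Icc 1 R).card = R := by simp
  obtain ⟨F, f1, f2, f3⟩ := markov (Icc 1 R) E (fun k _ => hEm k) (a := ε ^ 2 * Y ^ Fintype.card ι) hε
    (by rw [hcard]; omega) (fun k hk => (hE k (mem_Icc.1 hk).1).1)
  refine ⟨F, f1, f2.trans (ENNReal.ofReal_le_ofReal (le_of_eq ?_)), fun y hy hyF => ?_⟩
  · field_simp
  · have h1 := f3 y hyF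
    rw [hcard] at h1
    refine le_trans ?_ h1
    apply Nat.cast_le.2
    refine Set.ncard_le_ncard ?_ ((Set.finite_Icc 1 R).subset fun k hk => by
      have := mem_Icc.1 hk.1
      exact Set.mem_Icc.2 this)
    rintro n ⟨n1, n2, n3⟩
    exact ⟨mem_Icc.2 ⟨n1, n2⟩, (hE n n1).2 y hy (n3.mono (le_max_left _ _))⟩

lemma geo_sum : ∑' k : ℕ, ENNReal.ofReal ((1 / 2 : ℝ) ^ k) ≠ ∞ := by
  have h1 : Summable (fun k : ℕ => (1 / 2 : ℝ) ^ k) := summable_geometric_of_lt_one (by norm_num) (by norm_num)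
  rw [← ENNReal.ofReal_tsum_of_nonneg (fun k => by positivity) h1]
  exact ENNReal.ofReal_ne_top

/-- Every real vector is in the box of size `k` for large `k`. -/
lemma in_box {ι : Type} [Fintype ι] (ρ : ι → ℝ) : ∀ᶠ k : ℕ in atTop, ∀ i, |ρ i| ≤ (k : ℝ) + 1 := by
  obtain ⟨k₀, hk⟩ := exists_nat_ge ‖ρ‖
  filter_upwards [eventually_ge_atTop k₀] with k hk1 i
  have h1 : |ρ i| ≤ ‖ρ‖ := by
    rw [← Real.norm_eq_abs]
    exact norm_le_pi_norm ρ i
  have h2 : (k₀ : ℝ) ≤ k := by exact_mod_cast hk1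
  linarith

theorem null_fast {ι : Type} [Fintype ι] {P : ℕ → (ι → ℤ) → Prop} (h : ∀ m, NullBox (P m)) :
    FastDilatesVec P := by
  classical
  have hch : ∀ k : ℕ, ∃ X₀ : ℝ, 1 ≤ X₀ ∧ ∀ v B : ℝ, 0 < v → 0 < B → X₀ ≤ v * B → ∃ E : Set (ι → ℝ),
      MeasurableSet E ∧ volume E ≤ ENNReal.ofReal ((1 / 2 : ℝ) ^ k / ((k : ℝ) + 1) ^ Fintype.card ι *
        B ^ Fintype.card ι) ∧
      ∀ ρ : ι → ℝ, (∀ i, |ρ i| ≤ B) → Hit (fun x => ∃ m, m ≤ k ∧ P m x) k (fun i => v * ρ i) → ρ ∈ E := fun k =>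
    hit_null (NullBox.upto h k) (w := (k : ℝ)) (Nat.cast_nonneg _) (by positivity)
  choose g hg1 hg using hch
  refine ⟨g, fun v hv => ?_⟩
  have hE : ∀ k : ℕ, ∃ E : Set (ι → ℝ), volume E ≤ ENNReal.ofReal ((1 / 2 : ℝ) ^ k) ∧
      ∀ ρ : ι → ℝ, (∀ i, |ρ i| ≤ (k : ℝ) + 1) → Hit (fun x => ∃ m, m ≤ k ∧ P m x) k (fun i => v k * ρ i) → ρ ∈ E := by
    intro k
    have hk0 : (0 : ℝ) ≤ k := Nat.cast_nonneg _
    have h1 := hg1 k
    have h2 := hv k
    obtain ⟨E, -, e2, e3⟩ := hg k (v k) (k + 1) (by linarith) (by linarith) (by nlinarith)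
    refine ⟨E, e2.trans (le_of_eq ?_), e3⟩
    congr 1
    field_simp
  choose E hE1 hE2 using hE
  have hbc : volume (limsup E atTop) = 0 := by
    apply measure_limsup_atTop_eq_zero
    exact ne_top_of_le_ne_top geo_sum (ENNReal.tsum_le_tsum hE1)
  have hae : ∀ᵐ ρ : ι → ℝ, ρ ∉ limsup E atTop := by
    rw [ae_iff]
    simpa using hbc
  filter_upwards [hae] with ρ hρ
  have h1 : ∀ᶠ k in atTop, ρ ∉ E k := by
    rw [mem_limsup_iff_frequently_mem] at hρ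
    exact Filter.not_frequently.1 hρ
  filter_upwards [h1, in_box ρ] with k hk1 hk2 m hm hk3
  obtain ⟨x, hx1, hx2⟩ := hk3
  exact hk1 (hE2 k ρ hk2 ⟨x, hx1, m, hm, hx2⟩)

theorem null_dil {ι : Type} [Fintype ι] {P : ℕ → (ι → ℤ) → Prop} (h : ∀ m, NullBox (P m)) :
    DilatesVec P := by
  classical
  intro v hv
  have key : ∀ (j : ℕ) (M : ℕ), ∃ K : ℕ, M < K ∧ ∃ F : Set (ι → ℝ), volume F ≤ ENNReal.ofReal ((1 / 2 : ℝ) ^ j) ∧
      ∀ ρ : ι → ℝ, (∀ i, |ρ i| ≤ (j : ℝ) + 1) → ρ ∉ F →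
        ({k : ℕ | k < K ∧ Hit (fun x => ∃ m, m ≤ j ∧ P m x) j (fun i => v k * ρ i)}.ncard : ℝ) ≤ 2 * (1 / 2 : ℝ) ^ j * K := by
    intro j M
    have hj0 : (0 : ℝ) ≤ j := Nat.cast_nonneg _
    obtain ⟨X₀, hX1, hX⟩ := hit_null (NullBox.upto h j) (w := (j : ℝ)) (ε := (1 / 4 : ℝ) ^ j / ((j : ℝ) + 1) ^ Fintype.card ι)
      hj0 (by positivity)
    obtain ⟨k₀, hk₀⟩ := (hv.eventually_ge_atTop X₀).exists_forall_of_atTop
    set K : ℕ := M + 1 + k₀ + k₀ * 2 ^ j with hK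
    have hch : ∀ k : ℕ, ∃ E : Set (ι → ℝ), MeasurableSet E ∧
        (k₀ ≤ k → volume E ≤ ENNReal.ofReal ((1 / 4 : ℝ) ^ j) ∧
        ∀ ρ : ι → ℝ, (∀ i, |ρ i| ≤ (j : ℝ) + 1) → Hit (fun x => ∃ m, m ≤ j ∧ P m x) j (fun i => v k * ρ i) → ρ ∈ E) := by
      intro k
      by_cases hk : k₀ ≤ k
      · have h1 := hk₀ k hk
        obtain ⟨E, e1, e2, e3⟩ := hX (v k) (j + 1) (by linarith) (by linarith) (by nlinarith)
        refine ⟨E, e1, fun _ => ⟨e2.trans (le_of_eq ?_), e3⟩⟩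
        congr 1
        field_simp
      · exact ⟨∅, MeasurableSet.empty, fun h => absurd h hk⟩
    choose E hEm hE using hch
    have hcard : (Ico k₀ K).card = K - k₀ := by simp
    obtain ⟨F, f1, f2, f3⟩ := markov (Ico k₀ K) E (fun k _ => hEm k) (a := (1 / 4 : ℝ) ^ j) (δ := (1 / 2 : ℝ) ^ j)
      (by positivity) (by rw [hcard]; omega) (fun k hk => (hE k (mem_Ico.1 hk).1).1)
    refine ⟨K, by omega, F, f2.trans (ENNReal.ofReal_le_ofReal (le_of_eq ?_)), fun ρ hρ hρF => ?_⟩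
    · rw [← div_pow]
      norm_num
    · have h1 := f3 ρ hρF
      have hfin : {k : ℕ | k ∈ Ico k₀ K ∧ ρ ∈ E k}.Finite := (Ico k₀ K).finite_toSet.subset fun k hk => hk.1
      have h2 : ({k : ℕ | k < K ∧ Hit (fun x => ∃ m, m ≤ j ∧ P m x) j (fun i => v k * ρ i)}.ncard : ℝ) ≤
          k₀ + ({k : ℕ | k ∈ Ico k₀ K ∧ ρ ∈ E k}.ncard : ℝ) := by
        have h3 : {k : ℕ | k < K ∧ Hit (fun x => ∃ m, m ≤ j ∧ P m x) j (fun i => v k * ρ i)} ⊆
            Set.Iio k₀ ∪ {k : ℕ | k ∈ Ico k₀ K ∧ ρ ∈ E k} := by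
          rintro k ⟨k1, k2⟩
          by_cases hk : k < k₀
          · exact Or.inl hk
          · exact Or.inr ⟨mem_Ico.2 ⟨by omega, k1⟩, (hE k (by omega)).2 ρ hρ k2⟩
        have h4 := (Set.ncard_le_ncard h3 ((Set.finite_Iio k₀).union hfin)).trans (Set.ncard_union_le _ _)
        have h5 : (Set.Iio k₀).ncard = k₀ := by
          rw [← Finset.coe_Iio, Set.ncard_coe_finset]
          simp
        rw [h5] at h4
        exact_mod_cast h4
      refine h2.trans ?_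
      have hK1 : ((K - k₀ : ℕ) : ℝ) ≤ K := by exact_mod_cast Nat.sub_le _ _
      rw [hcard] at h1
      have h6 : (k₀ : ℝ) ≤ (1 / 2 : ℝ) ^ j * K := by
        have h7 : (k₀ : ℝ) * 2 ^ j ≤ K := by
          rw [hK]
          push_cast
          have : (0 : ℝ) ≤ M := Nat.cast_nonneg _
          have : (0 : ℝ) ≤ k₀ := Nat.cast_nonneg _
          linarith
        have h8 : (1 / 2 : ℝ) ^ j * (k₀ * 2 ^ j) = k₀ := by
          rw [mul_comm (k₀ : ℝ), ← mul_assoc, ← mul_pow]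
          norm_num
        calc (k₀ : ℝ) = (1 / 2 : ℝ) ^ j * (k₀ * 2 ^ j) := h8.symm
          _ ≤ _ := mul_le_mul_of_nonneg_left h7 (by positivity)
      have h9 : (1 / 2 : ℝ) ^ j * ((K - k₀ : ℕ) : ℝ) ≤ (1 / 2 : ℝ) ^ j * K :=
        mul_le_mul_of_nonneg_left hK1 (by positivity)
      linarith
  choose κ hκ1 F hF1 hF2 using key
  set K : ℕ → ℕ := fun j => Nat.rec (κ 0 0) (fun j r => κ (j + 1) r) j with hKd
  have hK0 : K 0 = κ 0 0 := rfl
  have hKs : ∀ j, K (j + 1) = κ (j + 1) (K j) := fun j => rfl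
  have hKm : StrictMono K := strictMono_nat_of_lt_succ fun j => by
    rw [hKs]
    exact hκ1 _ _
  have hEx : ∀ j : ℕ, ∃ E : Set (ι → ℝ), volume E ≤ ENNReal.ofReal ((1 / 2 : ℝ) ^ j) ∧
      ∀ ρ : ι → ℝ, (∀ i, |ρ i| ≤ (j : ℝ) + 1) → ρ ∉ E →
        ({k : ℕ | k < K j ∧ Hit (fun x => ∃ m, m ≤ j ∧ P m x) j (fun i => v k * ρ i)}.ncard : ℝ) ≤ 2 * (1 / 2 : ℝ) ^ j * K j := by
    intro j
    cases j with
    | zero => exact ⟨F 0 0, hF1 0 0, hF2 0 0⟩
    | succ j => exact ⟨F (j + 1) (K j), hF1 _ _, hF2 _ _⟩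
  choose E hE1 hE2 using hEx
  refine ⟨K, hKm, ?_⟩
  have hbc : volume (limsup E atTop) = 0 := by
    apply measure_limsup_atTop_eq_zero
    exact ne_top_of_le_ne_top geo_sum (ENNReal.tsum_le_tsum hE1)
  have hae : ∀ᵐ ρ : ι → ℝ, ρ ∉ limsup E atTop := by
    rw [ae_iff]
    simpa using hbc
  filter_upwards [hae] with ρ hρ m w
  have h1 : ∀ᶠ k in atTop, ρ ∉ E k := by
    rw [mem_limsup_iff_frequently_mem] at hρ
    exact Filter.not_frequently.1 hρ
  obtain ⟨j₀, hj₀⟩ := exists_nat_ge w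
  have hlim : Tendsto (fun j : ℕ => 2 * (1 / 2 : ℝ) ^ j) atTop (𝓝 0) := by
    have := (tendsto_pow_atTop_nhds_zero_of_lt_one (r := (1 / 2 : ℝ)) (by norm_num) (by norm_num)).const_mul 2
    simpa using this
  refine tendsto_of_tendsto_of_tendsto_of_le_of_le' tendsto_const_nhds hlim
    (Eventually.of_forall fun j => by positivity) ?_
  filter_upwards [h1, in_box ρ, eventually_ge_atTop j₀, eventually_ge_atTop 1, eventually_ge_atTop m] with j j1 j2 j3 j4 j5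
  have hKj : (0 : ℝ) < K j := by
    have h5 : j ≤ K j := hKm.le_apply
    have h6 : 0 < K j := by omega
    exact_mod_cast h6
  rw [div_le_iff₀ hKj]
  refine le_trans ?_ (hE2 j ρ j2 j1)
  apply Nat.cast_le.2
  refine Set.ncard_le_ncard ?_ ((Set.finite_Iio (K j)).subset fun k hk => hk.1)
  rintro k ⟨k1, k2⟩
  have : (j₀ : ℝ) ≤ j := by exact_mod_cast j3
  obtain ⟨x, hx1, hx2⟩ := k2
  exact ⟨k1, x, fun i => (hx1 i).trans (by linarith), m, j5, hx2⟩

/-- All three conclusions. -/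
theorem null_all {ι : Type} [Fintype ι] {P : ℕ → (ι → ℤ) → Prop} (h : ∀ m, NullBox (P m)) :
    (∀ m, MultiplesVec (P m)) ∧ DilatesVec P ∧ FastDilatesVec P :=
  ⟨fun m => null_mult (h m), null_dil h, null_fast h⟩

/-- From proportions to density zero. -/
theorem null_of_ratio {ι : Type} [Fintype ι] {A B : (ι → ℤ) → Prop}
    (h : Tendsto (fun H : ℕ => ({x : ι → ℤ | (∀ i, |x i| ≤ (H : ℤ)) ∧ A x ∧ B x}.ncard : ℝ) /
      ({x : ι → ℤ | (∀ i, |x i| ≤ (H : ℤ)) ∧ A x}.ncard : ℝ)) atTop (𝓝 1)) :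
    NullBox (fun x => A x ∧ ¬ B x) := by
  classical
  intro ε hε
  set m := Fintype.card ι
  rw [Metric.tendsto_atTop] at h
  obtain ⟨H₀, h1⟩ := h (min (ε / 3 ^ m) (1 / 2)) (by positivity)
  refine ⟨H₀ + 1, fun H hH => ?_⟩
  have h2 := h1 H (by omega)
  have fA := box_finite A H
  have fAB := box_finite (fun x => A x ∧ B x) H
  set a : ℝ := ({x : ι → ℤ | (∀ i, |x i| ≤ (H : ℤ)) ∧ A x}.ncard : ℝ) with ha
  set b : ℝ := ({x : ι → ℤ | (∀ i, |x i| ≤ (H : ℤ)) ∧ A x ∧ B x}.ncard : ℝ) with hb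
  have ha0 : 0 < a := by
    have h33 : 0 ≤ a := Nat.cast_nonneg _
    rcases h33.lt_or_eq with h3 | h3
    · exact h3
    · rw [← h3, div_zero, dist_zero_left, norm_one] at h2
      have := h2.trans_le (min_le_right _ _)
      norm_num at this
  have hsplit : (({x : ι → ℤ | (∀ i, |x i| ≤ (H : ℤ)) ∧ A x ∧ ¬ B x}.ncard : ℕ) : ℝ) + b ≤ a := by
    have hd : Disjoint {x : ι → ℤ | (∀ i, |x i| ≤ (H : ℤ)) ∧ A x ∧ ¬ B x}
        {x : ι → ℤ | (∀ i, |x i| ≤ (H : ℤ)) ∧ A x ∧ B x} :=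
      Set.disjoint_left.2 fun x hx hy => hx.2.2 hy.2.2
    have h4 := Set.ncard_union_eq hd (box_finite (fun x => A x ∧ ¬ B x) H) fAB
    have h5 : ({x : ι → ℤ | (∀ i, |x i| ≤ (H : ℤ)) ∧ A x ∧ ¬ B x} ∪
        {x : ι → ℤ | (∀ i, |x i| ≤ (H : ℤ)) ∧ A x ∧ B x}).ncard ≤
        {x : ι → ℤ | (∀ i, |x i| ≤ (H : ℤ)) ∧ A x}.ncard := by
      refine Set.ncard_le_ncard ?_ fA
      rintro x (hx | hx)
      · exact ⟨hx.1, hx.2.1⟩
      · exact ⟨hx.1, hx.2.1⟩
    rw [h4] at h5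
    rw [ha, hb]
    exact_mod_cast h5
  have hbox : a ≤ (3 * (H : ℝ)) ^ m := by
    have h6 : {x : ι → ℤ | (∀ i, |x i| ≤ (H : ℤ)) ∧ A x} ⊆
        ((Fintype.piFinset fun _ : ι => Icc (-(H : ℤ)) H : Finset (ι → ℤ)) : Set (ι → ℤ)) := by
      rintro x ⟨hx, -⟩
      rw [Finset.mem_coe, Fintype.mem_piFinset]
      intro i
      exact mem_Icc.2 (abs_le.1 (hx i))
    have h7 := Set.ncard_le_ncard h6 (Finset.finite_toSet _)
    rw [Set.ncard_coe_finset, Fintype.card_piFinset] at h7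
    have h8 : ∏ _i : ι, (Icc (-(H : ℤ)) H).card = (2 * H + 1) ^ m := by
      rw [Finset.prod_const, Finset.card_univ, Int.card_Icc]
      congr 1
      omega
    rw [h8] at h7
    calc a ≤ (((2 * H + 1) ^ m : ℕ) : ℝ) := by rw [ha]; exact_mod_cast h7
      _ ≤ (3 * (H : ℝ)) ^ m := by
          push_cast
          apply pow_le_pow_left₀ (by positivity)
          have : (1 : ℝ) ≤ H := by exact_mod_cast (by omega : 1 ≤ H)
          linarith
  rw [Real.dist_eq] at h2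
  have h9 := (abs_lt.1 (h2.trans_le (min_le_left _ _))).1
  have h10 : (1 - ε / 3 ^ m) * a ≤ b := by
    rw [← le_div_iff₀ ha0]
    linarith
  calc (({x : ι → ℤ | (∀ i, |x i| ≤ (H : ℤ)) ∧ A x ∧ ¬ B x}.ncard : ℕ) : ℝ) ≤ ε / 3 ^ m * a := by linarith
    _ ≤ ε / 3 ^ m * (3 * (H : ℝ)) ^ m := mul_le_mul_of_nonneg_left hbox (by positivity)
    _ = ε * (H : ℝ) ^ m := by rw [mul_pow]; field_simp

end Pool.Agent.Q319.WN
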