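import Pool.Agent.Q319.WN.Null
import Pool.Agent.Q319.WN.Vec

/-!
# Properties of integers of density zero near the dilates of almost all real numbers
-/

set_option autoImplicit false

namespace Pool.Agent.Q319.WN

open Finset MeasureTheory Filter Topology
open scoped ENNReal

/-- `NullAtDilates P`: (1) for every real sequence `v k → ∞` there are `K 0 < K 1 < ...` such that for almost every real `α`,
every `m` and every `w` the proportion of the `k < K j` for which some integer `x` with `|x - α v k| ≤ w` has the property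
`P m` tends to `0` as `j → ∞`; (2) there are real numbers `g k` such that for all `v k ≥ g k` and almost every real `α`, for
all large `k`, NO integer `x` with `|x - α v k| ≤ k` has one of the properties `P m`, `m ≤ k`. -/
def NullAtDilates (P : ℕ → ℤ → Prop) : Prop :=
  (∀ v : ℕ → ℝ, Tendsto v atTop atTop → ∃ K : ℕ → ℕ, StrictMono K ∧ ∀ᵐ α : ℝ, ∀ (m : ℕ) (w : ℝ),
    Tendsto (fun j : ℕ => ({k : ℕ | k < K j ∧ ∃ x : ℤ, |(x : ℝ) - α * v k| ≤ w ∧ P m x}.ncard : ℝ) / K j)
      atTop (𝓝 0)) ∧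
  ∃ g : ℕ → ℝ, ∀ v : ℕ → ℝ, (∀ k, g k ≤ v k) → ∀ᵐ α : ℝ, ∀ᶠ k : ℕ in atTop, ∀ m : ℕ, m ≤ k →
    ∀ x : ℤ, |(x : ℝ) - α * v k| ≤ k → ¬ P m x

lemma nullBox_unit {P : ℤ → Prop} (h : Null P) : NullBox (fun x : Unit → ℤ => P (x ())) := by
  intro ε hε
  obtain ⟨X₀, h1⟩ := h ε hε
  refine ⟨X₀, fun H hH => ?_⟩
  rw [Fintype.card_unit, pow_one]
  refine le_trans ?_ (h1 H hH)
  apply Nat.cast_le.2
  refine Set.ncard_le_ncard_of_injOn (fun x : Unit → ℤ => x ()) ?_ ?_ ?_
  · rintro x ⟨h2, h3⟩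
    refine ⟨?_, h3⟩
    have h4 := h2 ()
    rw [Int.abs_eq_natAbs] at h4
    exact_mod_cast h4
  · intro x _ y _ hxy
    funext u
    exact hxy
  · refine (Set.finite_Icc (-(H : ℤ)) H).subset fun x hx => ?_
    have h1 := hx.1
    rw [Set.mem_Icc]
    omega

lemma hit_unit {P : ℤ → Prop} {w v α : ℝ} :
    Hit (fun x : Unit → ℤ => P (x ())) w (fun _ : Unit => v * α) ↔ ∃ x : ℤ, |(x : ℝ) - α * v| ≤ w ∧ P x := by
  constructor
  · rintro ⟨x, h1, h2⟩
    refine ⟨x (), ?_, h2⟩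
    rw [mul_comm α]
    exact h1 ()
  · rintro ⟨x, h1, h2⟩
    refine ⟨fun _ => x, fun _ => ?_, h2⟩
    rw [mul_comm v]
    exact h1

lemma ae_unit {p : (Unit → ℝ) → Prop} (h : ∀ᵐ ρ : Unit → ℝ, p ρ) : ∀ᵐ α : ℝ, p (fun _ => α) :=
  (volume_preserving_funUnique Unit ℝ).symm.quasiMeasurePreserving.ae h

theorem null_dilates {P : ℕ → ℤ → Prop} (h : ∀ m, Null (P m)) : NullAtDilates P := by
  have h1 : ∀ m, NullBox (fun x : Unit → ℤ => P m (x ())) := fun m => nullBox_unit (h m)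
  refine ⟨fun v hv => ?_, ?_⟩
  · obtain ⟨K, hK, hae⟩ := null_dil h1 v hv
    refine ⟨K, hK, ?_⟩
    filter_upwards [ae_unit hae] with α hα m w
    refine (hα m w).congr fun j => ?_
    congr 3
    ext k
    simp only [Set.mem_ofPred_eq]
    rw [hit_unit]
  · obtain ⟨g, hg⟩ := null_fast h1
    refine ⟨g, fun v hv => ?_⟩
    filter_upwards [ae_unit (hg v hv)] with α hα
    filter_upwards [hα] with k hk m hm x hx hP
    exact hk m hm (hit_unit.2 ⟨x, hx, hP⟩)

/-- Both conclusions for a countable family of properties of density zero. -/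
theorem null_both {P : ℕ → ℤ → Prop} (h : ∀ m, Null (P m)) :
    (∀ m, NullAtMultiples (P m)) ∧ NullAtDilates P := ⟨fun m => null_multiples (h m), null_dilates h⟩

end Pool.Agent.Q319.WN
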