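import Pool.Agent.Q319.WN.One

/-!
# From proportions of sets of integers to density zero
-/

set_option autoImplicit false

namespace Pool.Agent.Q319.WN

open Finset Filter Topology

/-- If the sets `G X ⊆ L X` of integers of absolute value at most `X` satisfy `#(G X) / #(L X) → 1` and the integers up to `X`
with the property `P` are in `L X` but not in `G X`, then `P` has density zero. -/
theorem null_of_sets {P : ℤ → Prop} (L G : ℕ → Set ℤ) (hL : ∀ X : ℕ, ∀ a ∈ L X, |a| ≤ (X : ℤ))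
    (hG : ∀ X : ℕ, G X ⊆ L X) (hP : ∀ (X : ℕ) (a : ℤ), |a| ≤ (X : ℤ) → P a → a ∈ L X ∧ a ∉ G X)
    (h : Tendsto (fun X : ℕ => ((G X).ncard : ℝ) / ((L X).ncard : ℝ)) atTop (𝓝 1)) : Null P := by
  classical
  intro ε hε
  rw [Metric.tendsto_atTop] at h
  obtain ⟨X₀, h1⟩ := h (min (ε / 3) (1 / 2)) (by positivity)
  refine ⟨X₀ + 1, fun X hX => ?_⟩
  have h2 := h1 X (by omega)
  have f1 : (L X).Finite := (Set.finite_Icc (-(X : ℤ)) X).subset fun a ha => Set.mem_Icc.2 (abs_le.1 (hL X a ha))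
  have f2 : (G X).Finite := f1.subset (hG X)
  have hX1 : (1 : ℝ) ≤ X := by exact_mod_cast (by omega : 1 ≤ X)
  set a : ℝ := ((L X).ncard : ℝ) with ha
  set b : ℝ := ((G X).ncard : ℝ) with hb
  have ha0 : 0 < a := by
    have h33 : 0 ≤ a := Nat.cast_nonneg _
    rcases h33.lt_or_eq with h3 | h3
    · exact h3
    · rw [← h3, div_zero, dist_zero_left, norm_one] at h2
      have := h2.trans_le (min_le_right _ _)
      norm_num at this
  have habs : ∀ x : ℤ, x.natAbs ≤ X → |x| ≤ (X : ℤ) := by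
    intro x hx
    rw [Int.abs_eq_natAbs]
    exact_mod_cast hx
  have hsplit : (({x : ℤ | x.natAbs ≤ X ∧ P x}.ncard : ℕ) : ℝ) + b ≤ a := by
    have hd : Disjoint {x : ℤ | x.natAbs ≤ X ∧ P x} (G X) :=
      Set.disjoint_left.2 fun x hx hy => (hP X x (habs x hx.1) hx.2).2 hy
    have f3 : {x : ℤ | x.natAbs ≤ X ∧ P x}.Finite := f1.subset fun x hx => (hP X x (habs x hx.1) hx.2).1
    have h4 := Set.ncard_union_eq hd f3 f2
    have h5 : ({x : ℤ | x.natAbs ≤ X ∧ P x} ∪ G X).ncard ≤ (L X).ncard := by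
      refine Set.ncard_le_ncard ?_ f1
      rintro x (hx | hx)
      · exact (hP X x (habs x hx.1) hx.2).1
      · exact hG X hx
    rw [h4] at h5
    rw [ha, hb]
    exact_mod_cast h5
  have hbox : a ≤ 3 * (X : ℝ) := by
    have h6 : L X ⊆ ((Icc (-(X : ℤ)) X : Finset ℤ) : Set ℤ) := by
      intro x hx
      rw [Finset.mem_coe]
      exact mem_Icc.2 (abs_le.1 (hL X x hx))
    have h7 := Set.ncard_le_ncard h6 (Finset.finite_toSet _)
    rw [Set.ncard_coe_finset, Int.card_Icc] at h7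
    have h8 : (L X).ncard ≤ 3 * X := by omega
    rw [ha]
    exact_mod_cast h8
  rw [Real.dist_eq] at h2
  have h9 := (abs_lt.1 (h2.trans_le (min_le_left _ _))).1
  have h10 : (1 - ε / 3) * a ≤ b := by
    rw [← le_div_iff₀ ha0]
    linarith
  have h11 : ε / 3 * a ≤ ε / 3 * (3 * X) := mul_le_mul_of_nonneg_left hbox (by positivity)
  linarith

end Pool.Agent.Q319.WN
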