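import Pool.Agent.Q319.WN.Def
import Pool.Agent.Q319.DR.Gen
import Pool.Agent.Q319.DR.MultP1

/-!
# Properties of integers of density `O((log X) ^ (-δ))` at the multiples and at the dilates of almost all real numbers
-/

set_option autoImplicit false

namespace Pool.Agent.Q319.WN

open Finset MeasureTheory Filter

/-- For `0 < θ < 1` there are `c > 0` and `C` such that for all large `N` and all `1 ≤ w ≤ N ^ c` the following holds for
all real `y` with `N ^ (1 - θ) ≤ y ≤ 2 N ^ (1 - θ)` outside a set of measure at most `N ^ (1 - θ - c)`: for all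
`k ≤ N ^ θ` with at most `C w N ^ θ / (log N) ^ δ` exceptions NO integer `x` with `||x| - k y| ≤ w` has the
property `P`. -/
def ScarceAtMultiples (δ : ℝ) (P : ℤ → Prop) : Prop :=
  ∀ θ : ℝ, 0 < θ → θ < 1 → ∃ c C : ℝ, 0 < c ∧ ∃ N₀ : ℕ, ∀ N : ℕ, N₀ ≤ N → ∀ w : ℝ, 1 ≤ w → w ≤ (N : ℝ) ^ c →
    ∃ E : Set ℝ, MeasurableSet E ∧ volume E ≤ ENNReal.ofReal ((N : ℝ) ^ (1 - θ - c)) ∧
      ∀ y : ℝ, (N : ℝ) ^ (1 - θ) ≤ y → y ≤ 2 * (N : ℝ) ^ (1 - θ) → y ∉ E →
        (exceptions ((N : ℝ) ^ θ) y w P : ℝ) ≤ C * w * (N : ℝ) ^ θ / Real.log N ^ δ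

/-- For all real numbers `v k ≥ 3` and `0 ≤ w k ≤ v k` for which `∑ w k / (log (v k)) ^ δ` converges and for almost every
real number `α > 0`: for all large `k` NO integer `x ≠ 0` with `||x| - α v k| ≤ w k` has the property `P`. -/
def ScarceAtDilates (δ : ℝ) (P : ℤ → Prop) : Prop :=
  ∀ v w : ℕ → ℝ, (∀ k, 3 ≤ v k) → (∀ k, 0 ≤ w k ∧ w k ≤ v k) → Summable (fun k => w k / Real.log (v k) ^ δ) →
    ∀ᵐ α : ℝ, 0 < α → ∀ᶠ k : ℕ in atTop, ∀ x : ℤ, x ≠ 0 → |(|(x : ℝ)|) - α * v k| ≤ w k → ¬ P x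

/-- Up to `X` at most `C X (log X) ^ (-δ)` integers have the property `P`. -/
def Scarce (δ C : ℝ) (P : ℤ → Prop) : Prop :=
  ∀ X : ℕ, 3 ≤ X → ({x : ℤ | x.natAbs ≤ X ∧ P x}.ncard : ℝ) ≤ C * X * Real.log X ^ (-δ)

lemma scarce_nat {δ C : ℝ} {P : ℤ → Prop} (h : Scarce δ C P) (X : ℕ) (hX : 3 ≤ X) (S : Finset ℕ) (hS : S ⊆ Icc 1 X)
    (hSP : ∀ n ∈ S, ∃ x : ℤ, |(x : ℝ)| = n ∧ P x) : (S.card : ℝ) ≤ C * X * Real.log X ^ (-δ) := by
  classical
  refine Pool.Agent.Q319.DR.nat_of_int P _ S hSP fun F hF => le_trans ?_ (h X hX)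
  rw [← Set.ncard_coe_finset]
  apply Nat.cast_le.2
  refine Set.ncard_le_ncard (fun x hx => ?_) ?_
  · obtain ⟨h1, h2⟩ := hF x hx
    refine ⟨?_, h1⟩
    rw [mem_image] at h2
    obtain ⟨n, hn, h3⟩ := h2
    have h4 := (mem_Icc.1 (hS hn)).2
    rw [Int.abs_eq_natAbs] at h3
    omega
  · refine (Set.finite_Icc (-(X : ℤ)) X).subset fun x hx => ?_
    have h1 := hx.1
    rw [Set.mem_Icc]
    omega

theorem scarce_multiples {δ C : ℝ} (hδ : 0 < δ) (hC : 0 ≤ C) {P : ℤ → Prop} (h : Scarce δ C P) : ScarceAtMultiples δ P := by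
  classical
  intro θ hθ hθ1
  obtain ⟨c, hc, hcθ, N₁, h1⟩ := Pool.Agent.Q319.DR.mult_gen θ hθ hθ1
  have hex : ∀ᶠ Y : ℝ in atTop, 16 ≤ Y ∧ 1 ≤ Real.log Y ∧ Real.log Y ^ δ ≤ Y ^ c := by
    have h2 := (isLittleO_log_rpow_rpow_atTop δ hc).bound (show (0 : ℝ) < 1 by norm_num)
    filter_upwards [eventually_ge_atTop 16, Pool.Agent.Q319.DR.ev_log 1, h2] with Y a b d
    refine ⟨a, b, ?_⟩
    rw [one_mul, Real.norm_of_nonneg (Real.rpow_nonneg (by linarith) _),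
      Real.norm_of_nonneg (Real.rpow_nonneg (by linarith) _)] at d
    exact d
  obtain ⟨N₂, h2⟩ := (tendsto_natCast_atTop_atTop.eventually hex).exists_forall_of_atTop
  refine ⟨c, 40 * C + 1, hc, N₁ + N₂, fun N hN w hw1 hwc => ?_⟩
  obtain ⟨g1, g2, g3⟩ := h2 N (by omega)
  have hN0 : (0 : ℝ) < N := by linarith
  have hN1 : (1 : ℝ) ≤ N := by linarith
  have hNn : 3 ≤ N := by
    have : (3 : ℝ) ≤ N := by linarith
    exact_mod_cast this
  have hLδ : 0 < Real.log N ^ δ := Real.rpow_pos_of_pos (by linarith) _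
  set Bd : Finset ℕ := (Icc 1 (4 * N)).filter (fun n => ∃ x : ℤ, |(x : ℝ)| = n ∧ P x) with hBd
  have hBc : (Bd.card : ℝ) ≤ C * (4 * N) / Real.log N ^ δ := by
    have h3 := scarce_nat h (4 * N) (by omega) Bd (filter_subset _ _) (fun n hn => by
      rw [hBd, mem_filter] at hn
      exact hn.2)
    refine h3.trans ?_
    rw [Real.rpow_neg (Real.log_nonneg (by push_cast; linarith)), ← div_eq_mul_inv]
    have h4 : Real.log N ^ δ ≤ Real.log ((4 * N : ℕ) : ℝ) ^ δ := by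
      apply Real.rpow_le_rpow (by linarith) _ hδ.le
      exact Real.log_le_log hN0 (by push_cast; linarith)
    push_cast at h4 ⊢
    exact div_le_div_of_nonneg_left (by positivity) hLδ h4
  obtain ⟨E, hE1, hE2, hE3⟩ := h1 N (by omega) Bd w (by linarith) hwc
  refine ⟨E, hE1, hE2, fun y hy1 hy2 hyE => ?_⟩
  have hθ0 : 0 < (1 - θ) / 2 := by linarith
  have hh1 : 1 < (N : ℝ) ^ ((1 - θ) / 2) := Real.one_lt_rpow (by linarith) hθ0
  have hsq : (N : ℝ) ^ (1 - θ) = (N : ℝ) ^ ((1 - θ) / 2) * (N : ℝ) ^ ((1 - θ) / 2) := by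
    rw [← Real.rpow_add hN0]; congr 1; ring
  have hw2 : w ≤ (N : ℝ) ^ ((1 - θ) / 2) := hwc.trans (Real.rpow_le_rpow_of_exponent_le hN1 hcθ)
  have hwN : w ≤ N := by
    refine hw2.trans ?_
    calc (N : ℝ) ^ ((1 - θ) / 2) ≤ (N : ℝ) ^ (1 : ℝ) := Real.rpow_le_rpow_of_exponent_le hN1 (by linarith)
      _ = N := Real.rpow_one _
  have hwy : w < (N : ℝ) ^ (1 - θ) := by rw [hsq]; nlinarith
  have hsub : (exceptions ((N : ℝ) ^ θ) y w P : ℝ) ≤
      (((Icc 1 ⌊(N : ℝ) ^ θ⌋₊).filter (fun k : ℕ => ∃ q ∈ Bd, |(q : ℝ) - k * y| ≤ w)).card : ℝ) := by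
    unfold exceptions
    apply Nat.cast_le.2
    apply card_le_card
    intro k hk
    rw [mem_filter] at hk ⊢
    obtain ⟨hk1, x, hx1, hx2⟩ := hk
    refine ⟨hk1, x.natAbs, ?_, ?_⟩
    · have hxa : ((x.natAbs : ℕ) : ℝ) = |(x : ℝ)| := by rw [Nat.cast_natAbs, Int.cast_abs]
      rw [hBd, mem_filter, mem_Icc]
      obtain ⟨h5, h6⟩ := abs_le.1 hx1
      obtain ⟨hk2, hk3⟩ := mem_Icc.1 hk1
      have hk4 : (1 : ℝ) ≤ k := by exact_mod_cast hk2
      have hk5 : (k : ℝ) ≤ (N : ℝ) ^ θ := (Nat.le_floor_iff (by positivity)).1 hk3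
      have hYY : (N : ℝ) ^ θ * (N : ℝ) ^ (1 - θ) = N := by
        rw [← Real.rpow_add hN0]; simp
      have hY0 : 0 < (N : ℝ) ^ (1 - θ) := by positivity
      have hky1 : (N : ℝ) ^ (1 - θ) ≤ k * y := by nlinarith
      have hky2 : (k : ℝ) * y ≤ 2 * N := by
        calc (k : ℝ) * y ≤ (N : ℝ) ^ θ * (2 * (N : ℝ) ^ (1 - θ)) := by
              apply mul_le_mul hk5 hy2 (by linarith) (by positivity)
          _ = 2 * ((N : ℝ) ^ θ * (N : ℝ) ^ (1 - θ)) := by ring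
          _ = 2 * N := by rw [hYY]
      refine ⟨⟨?_, ?_⟩, x, hxa.symm, hx2⟩
      · have h7 : (0 : ℝ) < ((x.natAbs : ℕ) : ℝ) := by rw [hxa]; linarith
        exact_mod_cast h7
      · have h7 : ((x.natAbs : ℕ) : ℝ) ≤ ((4 * N : ℕ) : ℝ) := by rw [hxa]; push_cast; linarith
        exact_mod_cast h7
    · rw [Nat.cast_natAbs, Int.cast_abs]
      exact hx1
  refine hsub.trans ((hE3 y hy1 hy2 hyE).trans ?_)
  have hθp : 0 < (N : ℝ) ^ θ := by positivity
  have t1 : 5 * (w + 1) * ((Bd.card : ℝ) / N) * (N : ℝ) ^ θ ≤ 40 * C * w * (N : ℝ) ^ θ / Real.log N ^ δ := by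
    have e1 : (Bd.card : ℝ) / N ≤ 4 * C / Real.log N ^ δ := by
      rw [div_le_iff₀ hN0]
      refine hBc.trans (le_of_eq ?_)
      ring
    have e2 : 5 * (w + 1) ≤ 10 * w := by linarith
    calc 5 * (w + 1) * ((Bd.card : ℝ) / N) * (N : ℝ) ^ θ ≤ (10 * w) * (4 * C / Real.log N ^ δ) * (N : ℝ) ^ θ := by
          gcongr
      _ = _ := by ring
  have t2 : (N : ℝ) ^ (θ - c) ≤ w * (N : ℝ) ^ θ / Real.log N ^ δ := by
    rw [Real.rpow_sub hN0, div_le_div_iff₀ (by positivity) hLδ]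
    have e3 : (N : ℝ) ^ θ * Real.log N ^ δ ≤ (N : ℝ) ^ θ * (N : ℝ) ^ c := by gcongr
    have e4 : 0 < (N : ℝ) ^ θ * (N : ℝ) ^ c := by positivity
    nlinarith
  calc _ ≤ 40 * C * w * (N : ℝ) ^ θ / Real.log N ^ δ + w * (N : ℝ) ^ θ / Real.log N ^ δ := add_le_add t1 t2
    _ = _ := by ring

theorem scarce_dilates {δ C : ℝ} (hδ : 0 < δ) (hC : 0 ≤ C) {P : ℤ → Prop} (h : Scarce δ C P) : ScarceAtDilates δ P := by
  classical
  intro v w hv hw hs
  have h1 := Pool.Agent.Q319.DR.bc_all (fun _ n => ∃ x : ℤ, |(x : ℝ)| = n ∧ P x) v w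
    (fun k => by have := hv k; linarith) hw (fun D => by
      have hD : (0 : ℝ) ≤ D := Nat.cast_nonneg _
      refine ⟨fun k => (C * ((D : ℝ) + 2) * 2) * (w k / Real.log (v k) ^ δ), hs.mul_left _, fun k => ?_,
        fun k S hS hSb => ?_⟩
      · have h2 := hv k
        have h3 := (hw k).1
        have h4 : 0 < Real.log (v k) := Real.log_pos (by linarith)
        positivity
      · have h2 := hv k
        have h3 := (hw k).1
        have h4 : 0 < Real.log (v k) := Real.log_pos (by linarith)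
        have h5 : 0 < Real.log (v k) ^ δ := Real.rpow_pos_of_pos h4 _
        obtain ⟨X, hX⟩ : ∃ X : ℕ, X = ⌈((D : ℝ) + 1) * v k⌉₊ := ⟨_, rfl⟩
        have hX1 : ((D : ℝ) + 1) * v k ≤ X := by rw [hX]; exact Nat.le_ceil _
        have hX2 : (X : ℝ) ≤ ((D : ℝ) + 2) * v k := by
          have := Nat.ceil_lt_add_one (show 0 ≤ ((D : ℝ) + 1) * v k by positivity)
          rw [← hX] at this
          linarith
        have hX3 : v k ≤ X := by nlinarith
        have hX4 : 3 ≤ X := by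
          have : (3 : ℝ) ≤ X := by linarith
          exact_mod_cast this
        have h6 := scarce_nat h X hX4 S (hS.trans (Icc_subset_Icc le_rfl (by
          rw [hX]
          exact (Nat.floor_le_ceil _)))) hSb
        have h7 : Real.log X ^ (-δ) ≤ 1 / Real.log (v k) ^ δ := by
          have hXl : 0 < Real.log X := h4.trans_le (Real.log_le_log (by linarith) hX3)
          rw [Real.rpow_neg hXl.le, one_div]
          apply inv_anti₀ h5
          exact Real.rpow_le_rpow h4.le (Real.log_le_log (by linarith) hX3) hδ.le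
        have hv0 : 0 < v k := by linarith
        calc (S.card : ℝ) * (2 * w k / v k) ≤ (C * X * Real.log X ^ (-δ)) * (2 * w k / v k) := by gcongr
          _ ≤ (C * (((D : ℝ) + 2) * v k) * (1 / Real.log (v k) ^ δ)) * (2 * w k / v k) := by
              gcongr
          _ = _ := by field_simp)
  filter_upwards [h1] with α hα hα0
  filter_upwards [hα hα0] with k hk x hx0 hx hP
  refine hk x.natAbs (Int.natAbs_pos.2 hx0) ?_ ⟨x, ?_, hP⟩
  · rw [Nat.cast_natAbs, Int.cast_abs]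
    exact hx
  · rw [Nat.cast_natAbs, Int.cast_abs]

end Pool.Agent.Q319.WN
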