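import Pool.Agent.Q319.WN.Weak

/-! Properties of integers of density `O((log X) ^ (-δ))`: both theorems. -/

set_option autoImplicit false

namespace Pool.Agent.Q319.WN

theorem scarce_nonneg {δ C : ℝ} {P : ℤ → Prop} (h : Scarce δ C P) : 0 ≤ C := by
  have h1 := h 3 le_rfl
  have h2 : 0 ≤ C * ((3 : ℕ) : ℝ) * Real.log ((3 : ℕ) : ℝ) ^ (-δ) := (Nat.cast_nonneg _).trans h1
  have h3 : 0 < Real.log ((3 : ℕ) : ℝ) := Real.log_pos (by norm_num)
  have h4 : 0 < ((3 : ℕ) : ℝ) * Real.log ((3 : ℕ) : ℝ) ^ (-δ) := by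
    have : 0 < Real.log ((3 : ℕ) : ℝ) ^ (-δ) := Real.rpow_pos_of_pos h3 _
    positivity
  rw [mul_assoc] at h2
  by_contra hcon
  push Not at hcon
  have := mul_neg_of_neg_of_pos hcon h4
  linarith

theorem scarce_both {δ C : ℝ} (hδ : 0 < δ) {P : ℤ → Prop} (h : Scarce δ C P) :
    ScarceAtMultiples δ P ∧ ScarceAtDilates δ P :=
  ⟨scarce_multiples hδ (scarce_nonneg h) h, scarce_dilates hδ (scarce_nonneg h) h⟩

end Pool.Agent.Q319.WN
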