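import Pool.Agent.Q319.WN.Weak2
import Pool.Agent.Q319.WN.One

/-!
# Properties of integers of density `O((log X) ^ (-δ))` have density zero
-/

set_option autoImplicit false

namespace Pool.Agent.Q319.WN

open Filter Topology

theorem scarce_null {δ C : ℝ} (hδ : 0 < δ) {P : ℤ → Prop} (h : Scarce δ C P) : Null P := by
  intro ε hε
  have h1 : Tendsto (fun X : ℕ => |C| * Real.log X ^ (-δ)) atTop (𝓝 0) := by
    have h2 : Tendsto (fun X : ℕ => Real.log (X : ℝ)) atTop atTop :=
      Real.tendsto_log_atTop.comp tendsto_natCast_atTop_atTop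
    have h3 := ((tendsto_rpow_neg_atTop hδ).comp h2).const_mul |C|
    simpa using h3
  obtain ⟨X₀, h4⟩ := (h1.eventually (ge_mem_nhds hε)).exists_forall_of_atTop
  refine ⟨X₀ + 3, fun X hX => (h X (by omega)).trans ?_⟩
  have h5 : |C| * Real.log X ^ (-δ) ≤ ε := h4 X (by omega)
  have h6 : 0 ≤ Real.log (X : ℝ) ^ (-δ) := Real.rpow_nonneg (Real.log_natCast_nonneg X) _
  have h7 : C * Real.log (X : ℝ) ^ (-δ) ≤ ε := (mul_le_mul_of_nonneg_right (le_abs_self C) h6).trans h5
  calc C * X * Real.log X ^ (-δ) = (C * Real.log X ^ (-δ)) * X := by ring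
    _ ≤ ε * X := mul_le_mul_of_nonneg_right h7 (Nat.cast_nonneg _)

end Pool.Agent.Q319.WN
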